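import Pool.Agent.Worm59.Norm

/-!
# Worms and worm covers
-/

set_option autoImplicit false

namespace Pool.Agent.Worm59

open MeasureTheory Set

/-- a worm: the image of the unit interval under a `1`-Lipschitz map to the Euclidean plane -/
def IsWorm (w : Set (EuclideanSpace ℝ (Fin 2))) : Prop :=
  ∃ f : unitInterval → EuclideanSpace ℝ (Fin 2), LipschitzWith 1 f ∧ w = Set.range f

/-- a worm cover: a Lebesgue measurable set which contains, up to a rotation of the set about the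
origin followed by a translation, every worm -/
def IsWormCover (X : Set (EuclideanSpace ℝ (Fin 2))) : Prop :=
  NullMeasurableSet X volume ∧ ∀ w : Set (EuclideanSpace ℝ (Fin 2)), IsWorm w →
    ∃ ρ ∈ Matrix.specialOrthogonalGroup (Fin 2) ℝ, ∃ v : EuclideanSpace ℝ (Fin 2),
      w ⊆ (fun x => Matrix.toEuclideanLin ρ x + v) '' X

/-- the infimum of the areas of the convex worm covers -/
noncomputable def leastArea : ENNReal :=
  sInf {a | ∃ X : Set (EuclideanSpace ℝ (Fin 2)), Convex ℝ X ∧ IsWormCover X ∧ a = volume X}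

/-! ### polygonal arcs -/

theorem min_mono {a b s t : ℝ} (hab : a ≤ b) (hst : s ≤ t) :
    min s b - min s a ≤ min t b - min t a := by
  rcases le_total s a with h1 | h1 <;> rcases le_total s b with h2 | h2 <;>
  rcases le_total t a with h3 | h3 <;> rcases le_total t b with h4 | h4 <;>
  simp only [min_eq_left, min_eq_right, h1, h2, h3, h4] <;> linarith

theorem piece {E : Type*} [SeminormedAddCommGroup E] [NormedSpace ℝ E] {g l : ℝ} {d : E}
    (hg : 0 ≤ g) (hl : 0 ≤ l) (hd : ‖d‖ ≤ l) : ‖(g / l) • d‖ ≤ g := by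
  rcases hl.eq_or_lt with h | h
  · rw [← h, div_zero, zero_smul, norm_zero]; exact hg
  · rw [norm_smul, Real.norm_of_nonneg (by positivity), div_mul_eq_mul_div, div_le_iff₀ h]
    exact mul_le_mul_of_nonneg_left hd hg

theorem full {E : Type*} [NormedAddCommGroup E] [NormedSpace ℝ E] {l : ℝ} {d : E}
    (hl : 0 ≤ l) (hd : ‖d‖ ≤ l) : (l / l) • d = d := by
  rcases hl.eq_or_lt with h | h
  · rw [← h] at hd
    have : d = 0 := norm_le_zero_iff.1 hd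
    rw [this, smul_zero]
  · rw [div_self h.ne', one_smul]

/-- an arc through four points -/
theorem arc3 {E : Type*} [NormedAddCommGroup E] [NormedSpace ℝ E] (P₀ P₁ P₂ P₃ : E)
    {l₁ l₂ l₃ : ℝ} (h₁ : 0 ≤ l₁) (h₂ : 0 ≤ l₂) (h₃ : 0 ≤ l₃) (hl : l₁ + l₂ + l₃ ≤ 1)
    (n₁ : ‖P₁ - P₀‖ ≤ l₁) (n₂ : ‖P₂ - P₁‖ ≤ l₂) (n₃ : ‖P₃ - P₂‖ ≤ l₃) :
    ∃ f : unitInterval → E, LipschitzWith 1 f ∧ P₀ ∈ range f ∧ P₁ ∈ range f ∧ P₂ ∈ range f ∧
      P₃ ∈ range f := by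
  refine ⟨fun t => P₀ + ((min (t : ℝ) l₁) / l₁) • (P₁ - P₀)
    + ((min (t : ℝ) (l₁ + l₂) - min (t : ℝ) l₁) / l₂) • (P₂ - P₁)
    + ((min (t : ℝ) (l₁ + l₂ + l₃) - min (t : ℝ) (l₁ + l₂)) / l₃) • (P₃ - P₂), ?_, ?_, ?_, ?_, ?_⟩
  · have key : ∀ s t : unitInterval, (s : ℝ) ≤ t →
        ‖(P₀ + ((min (t : ℝ) l₁) / l₁) • (P₁ - P₀)
        + ((min (t : ℝ) (l₁ + l₂) - min (t : ℝ) l₁) / l₂) • (P₂ - P₁)
        + ((min (t : ℝ) (l₁ + l₂ + l₃) - min (t : ℝ) (l₁ + l₂)) / l₃) • (P₃ - P₂))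
        - (P₀ + ((min (s : ℝ) l₁) / l₁) • (P₁ - P₀)
        + ((min (s : ℝ) (l₁ + l₂) - min (s : ℝ) l₁) / l₂) • (P₂ - P₁)
        + ((min (s : ℝ) (l₁ + l₂ + l₃) - min (s : ℝ) (l₁ + l₂)) / l₃) • (P₃ - P₂))‖
        ≤ (t : ℝ) - s := by
      intro s t hst
      have e : (P₀ + ((min (t : ℝ) l₁) / l₁) • (P₁ - P₀)
        + ((min (t : ℝ) (l₁ + l₂) - min (t : ℝ) l₁) / l₂) • (P₂ - P₁)
        + ((min (t : ℝ) (l₁ + l₂ + l₃) - min (t : ℝ) (l₁ + l₂)) / l₃) • (P₃ - P₂))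
        - (P₀ + ((min (s : ℝ) l₁) / l₁) • (P₁ - P₀)
        + ((min (s : ℝ) (l₁ + l₂) - min (s : ℝ) l₁) / l₂) • (P₂ - P₁)
        + ((min (s : ℝ) (l₁ + l₂ + l₃) - min (s : ℝ) (l₁ + l₂)) / l₃) • (P₃ - P₂))
        = ((min (t : ℝ) l₁ - min (s : ℝ) l₁) / l₁) • (P₁ - P₀)
        + (((min (t : ℝ) (l₁ + l₂) - min (t : ℝ) l₁) - (min (s : ℝ) (l₁ + l₂) - min (s : ℝ) l₁))
          / l₂) • (P₂ - P₁)
        + (((min (t : ℝ) (l₁ + l₂ + l₃) - min (t : ℝ) (l₁ + l₂))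
          - (min (s : ℝ) (l₁ + l₂ + l₃) - min (s : ℝ) (l₁ + l₂))) / l₃) • (P₃ - P₂) := by
        simp only [sub_div, sub_smul]
        abel
      rw [e]
      have m1 : min (s : ℝ) l₁ ≤ min (t : ℝ) l₁ := min_le_min_right _ hst
      have m2 := min_mono (a := l₁) (b := l₁ + l₂) (by linarith) hst
      have m3 := min_mono (a := l₁ + l₂) (b := l₁ + l₂ + l₃) (by linarith) hst
      have m4 : min (t : ℝ) (l₁ + l₂ + l₃) - min (s : ℝ) (l₁ + l₂ + l₃) ≤ t - s := by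
        rcases le_total (s : ℝ) (l₁ + l₂ + l₃) with h | h
        · rw [min_eq_left h]
          have := min_le_left (t : ℝ) (l₁ + l₂ + l₃)
          linarith
        · rw [min_eq_right h]
          have := min_le_right (t : ℝ) (l₁ + l₂ + l₃)
          linarith
      refine (norm_add₃_le).trans ?_
      have p1 := piece (g := min (t : ℝ) l₁ - min (s : ℝ) l₁) (by linarith) h₁ n₁
      have p2 := piece (g := (min (t : ℝ) (l₁ + l₂) - min (t : ℝ) l₁)
        - (min (s : ℝ) (l₁ + l₂) - min (s : ℝ) l₁)) (by linarith) h₂ n₂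
      have p3 := piece (g := (min (t : ℝ) (l₁ + l₂ + l₃) - min (t : ℝ) (l₁ + l₂))
          - (min (s : ℝ) (l₁ + l₂ + l₃) - min (s : ℝ) (l₁ + l₂))) (by linarith) h₃ n₃
      linarith
    refine LipschitzWith.of_dist_le_mul fun s t => ?_
    rw [NNReal.coe_one, one_mul, dist_eq_norm, Subtype.dist_eq, Real.dist_eq]
    rcases le_total (s : ℝ) t with h | h
    · rw [norm_sub_rev, abs_sub_comm, abs_of_nonneg (by linarith)]
      exact key s t h
    · rw [abs_of_nonneg (by linarith)]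
      exact key t s h
  · refine ⟨⟨0, by simp⟩, ?_⟩
    simp only [min_eq_left h₁, min_eq_left (add_nonneg h₁ h₂),
      min_eq_left (add_nonneg (add_nonneg h₁ h₂) h₃), zero_div, sub_self, zero_smul, add_zero]
  · refine ⟨⟨l₁, h₁, by linarith⟩, ?_⟩
    simp only [min_self, min_eq_left (show l₁ ≤ l₁ + l₂ by linarith),
      min_eq_left (show l₁ ≤ l₁ + l₂ + l₃ by linarith), zero_div, sub_self, zero_smul, add_zero]
    rw [full h₁ n₁]
    abel
  · refine ⟨⟨l₁ + l₂, by positivity, by linarith⟩, ?_⟩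
    simp only [min_self, min_eq_right (show l₁ ≤ l₁ + l₂ by linarith),
      min_eq_left (show l₁ + l₂ ≤ l₁ + l₂ + l₃ by linarith), zero_div, sub_self, zero_smul,
      add_zero, add_sub_cancel_left]
    rw [full h₁ n₁, full h₂ n₂]
    abel
  · refine ⟨⟨l₁ + l₂ + l₃, by positivity, by linarith⟩, ?_⟩
    simp only [min_self, min_eq_right (show l₁ ≤ l₁ + l₂ + l₃ by linarith),
      min_eq_right (show l₁ + l₂ ≤ l₁ + l₂ + l₃ by linarith), add_sub_cancel_left]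
    rw [full h₁ n₁, full h₂ n₂, full h₃ n₃]
    abel

/-! ### the copies of the arcs in a cover -/

theorem cover_gives {X : Set (EuclideanSpace ℝ (Fin 2))} (hX : IsWormCover X)
    {f : unitInterval → EuclideanSpace ℝ (Fin 2)} (hf : LipschitzWith 1 f) :
    ∃ c s p q : ℝ, c ^ 2 + s ^ 2 = 1 ∧ ∀ P ∈ range f,
      !₂[p + (c * P 0 - s * P 1), q + (s * P 0 + c * P 1)] ∈ X := by
  obtain ⟨ρ, hρ, v, hv⟩ := hX.2 _ ⟨f, hf, rfl⟩
  obtain ⟨e1, e2, e3⟩ := Matrix.mem_specialOrthogonalGroup_fin_two_iff.1 hρ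
  refine ⟨ρ 0 0, ρ 0 1, -(ρ 0 0 * v 0 - ρ 0 1 * v 1), -(ρ 0 1 * v 0 + ρ 0 0 * v 1), e3, ?_⟩
  intro P hP
  obtain ⟨x, hx, hx'⟩ := hv hP
  have h0 : ρ 0 0 * x 0 + ρ 0 1 * x 1 + v 0 = P 0 := by
    rw [← hx']
    simp [Matrix.toEuclideanLin, Matrix.toLin'_apply, Matrix.mulVec, dotProduct]
  have h1 : ρ 1 0 * x 0 + ρ 1 1 * x 1 + v 1 = P 1 := by
    rw [← hx']
    simp [Matrix.toEuclideanLin, Matrix.toLin'_apply, Matrix.mulVec, dotProduct]
  have e4 : ρ 1 0 = -ρ 0 1 := by rw [e2, neg_neg]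
  rw [← e1, e4] at h1
  have e5 : !₂[-(ρ 0 0 * v 0 - ρ 0 1 * v 1) + (ρ 0 0 * P 0 - ρ 0 1 * P 1),
      -(ρ 0 1 * v 0 + ρ 0 0 * v 1) + (ρ 0 1 * P 0 + ρ 0 0 * P 1)] = x := by
    ext i
    fin_cases i
    · show -(ρ 0 0 * v 0 - ρ 0 1 * v 1) + (ρ 0 0 * P 0 - ρ 0 1 * P 1) = x 0
      rw [← h0, ← h1]
      linear_combination (x 0) * e3
    · show -(ρ 0 1 * v 0 + ρ 0 0 * v 1) + (ρ 0 1 * P 0 + ρ 0 0 * P 1) = x 1
      rw [← h0, ← h1]
      linear_combination (x 1) * e3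
  rw [e5]
  exact hx

theorem cover_gives' {X : Set (EuclideanSpace ℝ (Fin 2))} (hX : IsWormCover X)
    {f : unitInterval → EuclideanSpace ℝ (Fin 2)} (hf : LipschitzWith 1 f) :
    ∃ c s p q : ℝ, c ^ 2 + s ^ 2 = 1 ∧ ∀ a b : ℝ, !₂[a, b] ∈ range f →
      !₂[p + (c * a - s * b), q + (s * a + c * b)] ∈ X := by
  obtain ⟨c, s, p, q, h1, h2⟩ := cover_gives hX hf
  exact ⟨c, s, p, q, h1, fun a b h => h2 _ h⟩

theorem norm_le_of {a b a' b' l : ℝ} (hl : 0 ≤ l) (h : (a - a') ^ 2 + (b - b') ^ 2 ≤ l ^ 2) :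
    ‖(!₂[a, b] : EuclideanSpace ℝ (Fin 2)) - !₂[a', b']‖ ≤ l := by
  rw [EuclideanSpace.norm_eq, Fin.sum_univ_two]
  refine Real.sqrt_le_iff.2 ⟨hl, ?_⟩
  simpa [sq_abs] using h

/-- the segment -/
theorem seg_arc : ∃ f : unitInterval → EuclideanSpace ℝ (Fin 2), LipschitzWith 1 f ∧
    !₂[0, 0] ∈ range f ∧ !₂[1, 0] ∈ range f := by
  obtain ⟨f, h1, h2, h3, -, -⟩ := arc3 (!₂[0, 0] : EuclideanSpace ℝ (Fin 2)) !₂[1, 0] !₂[1, 0]
    !₂[1, 0] (l₁ := 1) (l₂ := 0) (l₃ := 0) (by norm_num) (by norm_num) (by norm_num) (by norm_num)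
    (norm_le_of (by norm_num) (by norm_num)) (norm_le_of (by norm_num) (by norm_num))
    (norm_le_of (by norm_num) (by norm_num))
  exact ⟨f, h1, h2, h3⟩

/-- two sides of an equilateral triangle -/
theorem tri_arc : ∃ f : unitInterval → EuclideanSpace ℝ (Fin 2), LipschitzWith 1 f ∧
    !₂[-1 / 4, -√3 / 12] ∈ range f ∧ !₂[0, √3 / 6] ∈ range f ∧ !₂[1 / 4, -√3 / 12] ∈ range f := by
  have e3 : √3 ^ 2 = 3 := Real.sq_sqrt (by norm_num)
  obtain ⟨f, h1, h2, h3, h4, -⟩ := arc3 (!₂[-1 / 4, -√3 / 12] : EuclideanSpace ℝ (Fin 2))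
    !₂[0, √3 / 6] !₂[1 / 4, -√3 / 12] !₂[1 / 4, -√3 / 12] (l₁ := 1 / 2) (l₂ := 1 / 2) (l₃ := 0)
    (by norm_num) (by norm_num) (by norm_num) (by norm_num)
    (norm_le_of (by norm_num) (by ring_nf; rw [e3]; norm_num))
    (norm_le_of (by norm_num) (by ring_nf; rw [e3]; norm_num))
    (norm_le_of (by norm_num) (by norm_num))
  exact ⟨f, h1, h2, h3, h4⟩

/-- three sides of a trapezoid -/
theorem trap_arc : ∃ f : unitInterval → EuclideanSpace ℝ (Fin 2), LipschitzWith 1 f ∧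
    !₂[-14052 / 65536, 10479 / 65536] ∈ range f ∧ !₂[-10922 / 65536, -11141 / 65536] ∈ range f ∧
    !₂[10922 / 65536, -11141 / 65536] ∈ range f ∧ !₂[14052 / 65536, 10479 / 65536] ∈ range f := by
  obtain ⟨f, h1, h2, h3, h4, h5⟩ := arc3
    (!₂[-14052 / 65536, 10479 / 65536] : EuclideanSpace ℝ (Fin 2))
    !₂[-10922 / 65536, -11141 / 65536] !₂[10922 / 65536, -11141 / 65536]
    !₂[14052 / 65536, 10479 / 65536] (l₁ := 21845.5 / 65536) (l₂ := 21844 / 65536)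
    (l₃ := 21845.5 / 65536)
    (by norm_num) (by norm_num) (by norm_num) (by norm_num)
    (norm_le_of (by norm_num) (by norm_num))
    (norm_le_of (by norm_num) (by norm_num))
    (norm_le_of (by norm_num) (by norm_num))
  exact ⟨f, h1, h2, h3, h4, h5⟩

/-! ### the area -/

/-- the set in coordinates -/
def crd (X : Set (EuclideanSpace ℝ (Fin 2))) : Set (ℝ × ℝ) := {q | !₂[q.1, q.2] ∈ X}

theorem crd_convex {X : Set (EuclideanSpace ℝ (Fin 2))} (hX : Convex ℝ X) : Convex ℝ (crd X) := by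
  intro p hp q hq a b ha hb hab
  have h := hX hp hq ha hb hab
  show !₂[(a • p + b • q).1, (a • p + b • q).2] ∈ X
  convert h using 1
  ext i
  fin_cases i
  · simp
  · simp

theorem crd_volume (X : Set (EuclideanSpace ℝ (Fin 2))) : volume (crd X) = volume X := by
  have h1 : MeasurePreserving (MeasurableEquiv.toLp 2 (Fin 2 → ℝ)).symm volume volume :=
    PiLp.volume_preserving_ofLp (Fin 2)
  have h2 := (volume_preserving_finTwoArrow ℝ)
  have h3 := h2.comp h1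
  rw [← (h3.measure_preimage_equiv (f := (MeasurableEquiv.toLp 2 (Fin 2 → ℝ)).symm.trans
    MeasurableEquiv.finTwoArrow) (crd X))]
  congr 1
  ext p
  have h4 : (!₂[p 0, p 1] : EuclideanSpace ℝ (Fin 2)) = p := by
    ext i
    fin_cases i <;> rfl
  show !₂[p 0, p 1] ∈ X ↔ p ∈ X
  rw [h4]

theorem image_spec' {K : Set (ℝ × ℝ)} (hK : Convex ℝ K) (a b v : ℝ × ℝ) : ∃ K' : Set (ℝ × ℝ),
    Convex ℝ K' ∧ volume K' = ENNReal.ofReal |a.1 * b.2 - b.1 * a.2| * volume K ∧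
      ∀ p ∈ K, ∀ q : ℝ × ℝ, q.1 = v.1 + (p.1 * a.1 + p.2 * b.1) →
        q.2 = v.2 + (p.1 * a.2 + p.2 * b.2) → q ∈ K' := by
  refine ⟨(fun p => v + p) '' (lin a b '' K), ?_, ?_, ?_⟩
  · have h := (hK.linear_image (lin a b)).translate v
    exact h
  · rw [show (fun p => v + p) '' (lin a b '' K)
      = (fun p => -v + p) ⁻¹' (lin a b '' K) from Set.image_add_left,
      measure_preimage_add, Measure.addHaar_image_linearMap, det_lin]
  · intro p hp q h1 h2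
    refine ⟨lin a b p, ⟨p, hp, rfl⟩, ?_⟩
    show v + lin a b p = q
    rw [lin_apply]
    ext
    · rw [h1]; rfl
    · rw [h2]; rfl

/-- a convex worm cover has an area of at least `0.237` -/
theorem convex_cover_area {X : Set (EuclideanSpace ℝ (Fin 2))} (hc : Convex ℝ X)
    (hX : IsWormCover X) : ENNReal.ofReal (237 / 1000) ≤ volume X := by
  by_cases hf : volume X = ⊤
  · rw [hf]; exact le_top
  obtain ⟨f, f1, f2, f3⟩ := seg_arc
  obtain ⟨g, g1, g2, g3, g4⟩ := tri_arc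
  obtain ⟨h, h1, h2, h3, h4, h5⟩ := trap_arc
  obtain ⟨c, s, p, q, cs, F⟩ := cover_gives' hX f1
  obtain ⟨c₁, s₁, p₁, q₁, cs₁, G⟩ := cover_gives' hX g1
  obtain ⟨c₂, s₂, p₂, q₂, cs₂, H⟩ := cover_gives' hX h1
  obtain ⟨K, k1, k2, k3⟩ := image_spec' (crd_convex hc) (65536 * c, -65536 * s)
    (65536 * s, 65536 * c) (-65536 * (c * p + s * q), 65536 * (s * p - c * q))
  have hd : |(65536 * c) * (65536 * c) - (65536 * s) * (-65536 * s)| = 4294967296 := by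
    rw [show (65536 * c) * (65536 * c) - (65536 * s) * (-65536 * s) = 4294967296 by
      linear_combination 4294967296 * cs]
    norm_num
  simp only [crd_volume, hd] at k2
  have F2 := F _ _ f2
  have F3 := F _ _ f3
  have G2 := G _ _ g2
  have G3 := G _ _ g3
  have G4 := G _ _ g4
  have H2 := H _ _ h2
  have H3 := H _ _ h3
  have H4 := H _ _ h4
  have H5 := H _ _ h5
  have hCf : Cf K (c * c₁ + s * s₁) (c * s₁ - s * c₁) (65536 * (c * (p₁ - p) + s * (q₁ - q)))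
      (65536 * (-s * (p₁ - p) + c * (q₁ - q))) (c * c₂ + s * s₂) (c * s₂ - s * c₂)
      (65536 * (c * (p₂ - p) + s * (q₂ - q))) (65536 * (-s * (p₂ - p) + c * (q₂ - q))) := by
    refine ⟨k1, ?_, ?_, k3 (_, _) F2 _ ?_ ?_, k3 (_, _) F3 _ ?_ ?_, k3 (_, _) G3 _ ?_ ?_,
      k3 (_, _) G2 _ ?_ ?_, k3 (_, _) G4 _ ?_ ?_, k3 (_, _) H3 _ ?_ ?_, k3 (_, _) H4 _ ?_ ?_,
      k3 (_, _) H5 _ ?_ ?_, k3 (_, _) H2 _ ?_ ?_⟩
    · linear_combination (c₁ ^ 2 + s₁ ^ 2) * cs + cs₁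
    · linear_combination (c₂ ^ 2 + s₂ ^ 2) * cs + cs₂
    · simp only; ring
    · simp only; ring
    · simp only; linear_combination (-65536) * cs
    · simp only; ring
    all_goals simp only; ring
  have hfK : volume K ≠ ⊤ := by
    rw [k2]
    exact ENNReal.mul_ne_top ENNReal.ofReal_ne_top hf
  have hb := area_bound hCf hfK
  rw [k2, ENNReal.toReal_mul, ENNReal.toReal_ofReal (by norm_num)] at hb
  refine (ENNReal.ofReal_le_iff_le_toReal hf).2 ?_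
  linarith

theorem leastArea_ge : ENNReal.ofReal (237 / 1000) ≤ leastArea := by
  refine le_sInf ?_
  rintro a ⟨X, hc, hX, rfl⟩
  exact convex_cover_area hc hX

end Pool.Agent.Worm59
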