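import Mathlib

/-!
# A branch and bound certificate for three arcs in a convex set

Lengths are multiplied by `65536`.  The segment `S` has the end points `(0, 0)` and `(65536, 0)`;
the points `2, 3, 4` are the corners of a triangle, the points `5, 6, 7, 8` the corners of a
trapezoid; both are rotated and translated.  The numbers in the computation are pairs of natural
numbers, and the computation uses the operations of `ℕ` only, since these are fast in the kernel.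
-/

set_option autoImplicit false

namespace Pool.Agent.Worm59

/-! ### numbers -/

/-- the integer `p - n` -/
structure Z where
  /-- positive part -/
  p : ℕ
  /-- negative part -/
  n : ℕ

namespace Z

def add (a b : Z) : Z := ⟨Nat.add a.p b.p, Nat.add a.n b.n⟩

def sub (a b : Z) : Z := ⟨Nat.add a.p b.n, Nat.add a.n b.p⟩

def mul (a b : Z) : Z :=
  ⟨Nat.add (Nat.mul a.p b.p) (Nat.mul a.n b.n), Nat.add (Nat.mul a.p b.n) (Nat.mul a.n b.p)⟩

def smul (k : ℕ) (a : Z) : Z := ⟨Nat.mul k a.p, Nat.mul k a.n⟩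

/-- the absolute value -/
def ab (a : Z) : ℕ := Nat.add (Nat.sub a.p a.n) (Nat.sub a.n a.p)

/-- the positive part -/
def pp (a : Z) : ℕ := Nat.sub a.p a.n

/-- the real value -/
noncomputable def v (a : Z) : ℝ := (a.p : ℝ) - a.n

@[simp] theorem v_add (a b : Z) : (add a b).v = a.v + b.v := by
  simp only [add, v, Nat.add_eq, Nat.cast_add]; ring

@[simp] theorem v_sub (a b : Z) : (sub a b).v = a.v - b.v := by
  simp only [sub, v, Nat.add_eq, Nat.cast_add]; ring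

@[simp] theorem v_mul (a b : Z) : (mul a b).v = a.v * b.v := by
  simp only [mul, v, Nat.add_eq, Nat.mul_eq, Nat.cast_add, Nat.cast_mul]; ring

@[simp] theorem v_smul (k : ℕ) (a : Z) : (smul k a).v = k * a.v := by
  simp only [smul, v, Nat.mul_eq, Nat.cast_mul]; ring

@[simp] theorem v_mk (p n : ℕ) : (⟨p, n⟩ : Z).v = (p : ℝ) - n := rfl

theorem ab_eq (a : Z) : (a.ab : ℝ) = |a.v| := by
  simp only [ab, v, Nat.add_eq, Nat.sub_eq, Nat.cast_add]
  rcases le_total a.p a.n with h | h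
  · rw [Nat.sub_eq_zero_of_le h, Nat.cast_sub h, abs_of_nonpos]
    · simp
    · have : (a.p : ℝ) ≤ a.n := by exact_mod_cast h
      linarith
  · rw [Nat.sub_eq_zero_of_le h, Nat.cast_sub h, abs_of_nonneg]
    · simp
    · have : (a.n : ℝ) ≤ a.p := by exact_mod_cast h
      linarith

theorem le_pp (a : Z) : a.v ≤ (a.pp : ℝ) := by
  simp only [pp, v, Nat.sub_eq]
  rcases le_total a.p a.n with h | h
  · have : (a.p : ℝ) ≤ a.n := by exact_mod_cast h
    rw [Nat.sub_eq_zero_of_le h]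
    simp only [Nat.cast_zero]
    linarith
  · rw [Nat.cast_sub h]

theorem pp_nonneg (a : Z) : (0 : ℝ) ≤ (a.pp : ℝ) := Nat.cast_nonneg _

end Z

/-- vectors -/
structure V where
  /-- first coordinate -/
  x : Z
  /-- second coordinate -/
  y : Z

/-- `p v + q J v` -/
def rot (p q : ℕ) (a : V) : V :=
  ⟨Z.sub (Z.smul p a.x) (Z.smul q a.y), Z.add (Z.smul q a.x) (Z.smul p a.y)⟩

def dt (a b : V) : Z := Z.sub (Z.mul a.x b.y) (Z.mul a.y b.x)

def dot (a b : V) : Z := Z.add (Z.mul a.x b.x) (Z.mul a.y b.y)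

/-- `a + w b` -/
def vadd (a : V) (w : Z) (b : V) : V := ⟨Z.add a.x (Z.mul w b.x), Z.add a.y (Z.mul w b.y)⟩

def vsub (a b : V) : V := ⟨Z.sub a.x b.x, Z.sub a.y b.y⟩

def z0 : Z := ⟨0, 0⟩

def v0 : V := ⟨z0, z0⟩

/-! ### the corners -/

/-- the corners of the triangle -/
def refD (i : ℕ) : V :=
  cond (Nat.beq i 2) ⟨⟨0, 0⟩, ⟨18918, 0⟩⟩
    (cond (Nat.beq i 3) ⟨⟨0, 16383⟩, ⟨0, 9459⟩⟩ ⟨⟨16383, 0⟩, ⟨0, 9459⟩⟩)

/-- the corners of the trapezoid -/
def refT0 (i : ℕ) : V :=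
  cond (Nat.beq i 5) ⟨⟨0, 10922⟩, ⟨0, 11141⟩⟩
    (cond (Nat.beq i 6) ⟨⟨10922, 0⟩, ⟨0, 11141⟩⟩
      (cond (Nat.beq i 7) ⟨⟨14052, 0⟩, ⟨10479, 0⟩⟩ ⟨⟨0, 14052⟩, ⟨10479, 0⟩⟩))

/-- the corners of the trapezoid, rotated by `k` right angles -/
def refT (k i : ℕ) : V :=
  cond (Nat.beq k 0) (refT0 i)
    (cond (Nat.beq k 1) ⟨⟨(refT0 i).y.n, (refT0 i).y.p⟩, (refT0 i).x⟩
      (cond (Nat.beq k 2) ⟨⟨(refT0 i).x.n, (refT0 i).x.p⟩, ⟨(refT0 i).y.n, (refT0 i).y.p⟩⟩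
        ⟨(refT0 i).y, ⟨(refT0 i).x.n, (refT0 i).x.p⟩⟩))

/-! ### sums of determinants -/

/-- the coefficients of a weighted sum of determinants of pairs of corners -/
structure Ag where
  K : Z
  n12 : Z
  n1 : Z
  n2 : Z
  e1 : V
  e2 : V
  a1 : V
  b2 : V
  f1 : V
  f2 : V
  ga : Z
  de : Z

def ag0 : Ag := ⟨z0, z0, z0, z0, v0, v0, v0, v0, v0, v0, z0, z0⟩

/-- add `w` times the determinant of the corners `i`, `j`, where `i < j` -/
def addP (k : ℕ) (w : Z) (i j : ℕ) (A : Ag) : Ag :=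
  cond (Nat.beq i 0) A
    (cond (Nat.beq i 1)
      (cond (Nat.ble j 4)
        ⟨A.K, A.n12, Z.add A.n1 w, A.n2, A.e1, A.e2, A.a1, A.b2, vadd A.f1 w (refD j), A.f2,
          A.ga, A.de⟩
        ⟨A.K, A.n12, A.n1, Z.add A.n2 w, A.e1, A.e2, A.a1, A.b2, A.f1, vadd A.f2 w (refT k j),
          A.ga, A.de⟩)
      (cond (Nat.ble i 4)
        (cond (Nat.ble j 4)
          ⟨Z.add A.K (Z.mul w (dt (refD i) (refD j))), A.n12, A.n1, A.n2,
            vadd A.e1 w (vsub (refD j) (refD i)), A.e2, A.a1, A.b2, A.f1, A.f2, A.ga, A.de⟩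
          ⟨A.K, Z.add A.n12 w, A.n1, A.n2, A.e1, A.e2, vadd A.a1 w (refD i),
            vadd A.b2 w (refT k j), A.f1, A.f2, Z.add A.ga (Z.mul w (dt (refD i) (refT k j))),
            Z.add A.de (Z.mul w (dot (refD i) (refT k j)))⟩)
        ⟨Z.add A.K (Z.mul w (dt (refT k i) (refT k j))), A.n12, A.n1, A.n2, A.e1,
          vadd A.e2 w (vsub (refT k j) (refT k i)), A.a1, A.b2, A.f1, A.f2, A.ga, A.de⟩))

/-- add `w` times the determinant of the corners `i`, `j` -/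
def addE (k w i j : ℕ) (A : Ag) : Ag :=
  cond (Nat.beq i j) A
    (cond (Nat.ble i j) (addP k ⟨w, 0⟩ i j A) (addP k ⟨0, w⟩ j i A))

/-! ### boxes -/

/-- a box: centres and half widths of the six parameters; the coordinates are shifted by
`65536`, and the tangents of the half angles are multiplied by `16384` -/
structure Bx where
  x1 : ℕ
  hx1 : ℕ
  y1 : ℕ
  hy1 : ℕ
  u1 : ℕ
  hu1 : ℕ
  x2 : ℕ
  hx2 : ℕ
  y2 : ℕ
  hy2 : ℕ
  u2 : ℕ
  hu2 : ℕ

/-- the bound for the sine, times `16384` -/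
def sg (u h : ℕ) : ℕ :=
  Nat.succ (Nat.div (Nat.mul 536870912 h)
    (Nat.add 268435456 (Nat.mul u (Nat.sub u h))))

/-- the bound for one minus the cosine, times `16384` -/
def ee (s : ℕ) : ℕ := Nat.succ (Nat.div (Nat.mul s s) 32768)

/-- cosine and sine of the centre, times `nn u` -/
def pc (u : ℕ) : ℕ := Nat.sub 268435456 (Nat.mul u u)

def qc (u : ℕ) : ℕ := Nat.mul 32768 u

def nn (u : ℕ) : ℕ := Nat.add 268435456 (Nat.mul u u)

/-- the height of a corner `g` (times `N`) over the box is nonnegative -/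
def upOK (N y : ℕ) (hy s e : ℕ) (g : V) : Bool :=
  Nat.ble
    (Nat.add (Nat.mul 16384 (Nat.add g.y.n (Nat.mul N (Nat.add 65536 hy))))
      (Nat.add (Nat.mul g.x.ab s) (Nat.mul g.y.pp e)))
    (Nat.mul 16384 (Nat.add g.y.p (Nat.mul N y)))

/-- the height of a corner `g` (times `N`) over the box is nonpositive -/
def loOK (N y : ℕ) (hy s e : ℕ) (g : V) : Bool :=
  Nat.ble
    (Nat.add (Nat.mul 16384 (Nat.add g.y.p (Nat.mul N (Nat.add y hy))))
      (Nat.add (Nat.mul g.x.ab s) (Nat.mul (Nat.sub g.y.n g.y.p) e)))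
    (Nat.mul 16384 (Nat.add g.y.n (Nat.mul N 65536)))

/-- the corner `i` is above the segment -/
def upI (k : ℕ) (b : Bx) (i : ℕ) : Bool :=
  cond (Nat.ble i 4)
    (upOK (nn b.u1) b.y1 b.hy1 (sg b.u1 b.hu1) (ee (sg b.u1 b.hu1))
      (rot (pc b.u1) (qc b.u1) (refD i)))
    (upOK (nn b.u2) b.y2 b.hy2 (sg b.u2 b.hu2) (ee (sg b.u2 b.hu2))
      (rot (pc b.u2) (qc b.u2) (refT k i)))

/-- the corner `i` is below the segment -/
def loI (k : ℕ) (b : Bx) (i : ℕ) : Bool :=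
  cond (Nat.ble i 4)
    (loOK (nn b.u1) b.y1 b.hy1 (sg b.u1 b.hu1) (ee (sg b.u1 b.hu1))
      (rot (pc b.u1) (qc b.u1) (refD i)))
    (loOK (nn b.u2) b.y2 b.hy2 (sg b.u2 b.hu2) (ee (sg b.u2 b.hu2))
      (rot (pc b.u2) (qc b.u2) (refT k i)))

/-! ### the bound -/

/-- the final check; `T1`, `T2` are the centres of the translations, the rotated coefficient
vectors are `E1`, `F1`, `A1` (times `N1`) and `E2`, `F2`, `B2` (times `N2`), `Ga` and `De` are times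
`N1 N2` -/
def fin (A : Ag) (MW N1 N2 : ℕ) (T1 T2 E1 E2 A1 B2 F1 F2 : V) (Ga De : Z)
    (dx1 dy1 s1 e1 dx2 dy2 s2 e2 : ℕ) : Bool :=
  Nat.ble
    (Nat.add (Nat.mul 268435456 (Nat.add (Nat.mul (Nat.mul N1 N2) MW)
      (Nat.add
        (Nat.add
          (Nat.mul (Z.ab (Z.add (Z.add (Z.smul N2 E1.y) (Z.smul N1 B2.y))
            (Z.smul (Nat.mul N1 N2) (Z.mul A.n12 T2.y)))) dx1)
          (Nat.mul (Z.ab (Z.sub (Z.smul (Nat.mul 65536 (Nat.mul N1 N2)) A.n1)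
            (Z.add (Z.add (Z.smul N2 E1.x) (Z.smul N1 B2.x))
              (Z.smul (Nat.mul N1 N2) (Z.mul A.n12 T2.x))))) dy1))
        (Nat.add
          (Nat.mul (Z.ab (Z.sub (Z.smul N1 E2.y) (Z.add (Z.smul N2 A1.y)
            (Z.smul (Nat.mul N1 N2) (Z.mul A.n12 T1.y))))) dx2)
          (Nat.mul (Z.ab (Z.add (Z.smul (Nat.mul 65536 (Nat.mul N1 N2)) A.n2)
            (Z.sub (Z.add (Z.smul N2 A1.x) (Z.smul (Nat.mul N1 N2) (Z.mul A.n12 T1.x)))
              (Z.smul N1 E2.x)))) dy2)))))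
      (Nat.add
        (Nat.mul 16384
          (Nat.add
            (Nat.add
              (Nat.add
                (Nat.mul (Z.ab (Z.add (Z.smul N2 (Z.sub (dot T1 E1) (dot A1 T2)))
                  (Z.sub (Z.smul (Nat.mul 65536 N2) F1.x) De))) s1)
                (Nat.mul (Z.pp (Z.add (Z.smul N2 (Z.add (dt T1 E1) (dt A1 T2)))
                  (Z.add (Z.smul (Nat.mul 65536 N2) F1.y) Ga))) e1))
              (Nat.add
                (Nat.mul (Z.ab (Z.add (Z.smul N1 (Z.add (dot T2 E2) (dot T1 B2)))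
                  (Z.add (Z.smul (Nat.mul 65536 N1) F2.x) De))) s2)
                (Nat.mul (Z.pp (Z.add (Z.smul N1 (Z.add (dt T2 E2) (dt T1 B2)))
                  (Z.add (Z.smul (Nat.mul 65536 N1) F2.y) Ga))) e2)))
            (Nat.add
              (Nat.mul N1
                (Nat.add
                  (Nat.add (Nat.mul (Z.ab B2.x) (Nat.add (Nat.mul dx1 s2) (Nat.mul dy1 e2)))
                    (Nat.mul (Z.ab B2.y) (Nat.add (Nat.mul dx1 e2) (Nat.mul dy1 s2))))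
                  (Nat.add (Nat.mul (Z.ab E2.x) (Nat.add (Nat.mul dx2 s2) (Nat.mul dy2 e2)))
                    (Nat.mul (Z.ab E2.y) (Nat.add (Nat.mul dx2 e2) (Nat.mul dy2 s2))))))
              (Nat.mul N2
                (Nat.add
                  (Nat.add (Nat.mul (Z.ab A1.x) (Nat.add (Nat.mul dx2 s1) (Nat.mul dy2 e1)))
                    (Nat.mul (Z.ab A1.y) (Nat.add (Nat.mul dx2 e1) (Nat.mul dy2 s1))))
                  (Nat.add (Nat.mul (Z.ab E1.x) (Nat.add (Nat.mul dx1 s1) (Nat.mul dy1 e1)))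
                    (Nat.mul (Z.ab E1.y) (Nat.add (Nat.mul dx1 e1) (Nat.mul dy1 s1)))))))))
        (Nat.add
          (Nat.mul (Nat.mul 268435456 (Nat.mul (Nat.mul N1 N2) (Z.ab A.n12)))
            (Nat.add (Nat.mul dx1 dy2) (Nat.mul dy1 dx2)))
          (Nat.add (Nat.mul (Z.ab Ga) (Nat.add (Nat.mul s1 s2) (Nat.mul e1 e2)))
            (Nat.mul (Z.ab De) (Nat.add (Nat.mul s1 e2) (Nat.mul e1 s2)))))))
    (Nat.mul 268435456 (Z.pp
      (Z.add
        (Z.add (Z.smul (Nat.mul N1 N2) (Z.add A.K (Z.mul A.n12 (dt T1 T2))))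
          (Z.add (Z.smul N2 (Z.add (dt T1 E1) (dt A1 T2)))
            (Z.smul N1 (Z.add (dt T2 E2) (dt T1 B2)))))
        (Z.add Ga
          (Z.smul 65536
            (Z.add (Z.smul (Nat.mul N1 N2) (Z.add (Z.mul A.n1 T1.y) (Z.mul A.n2 T2.y)))
              (Z.add (Z.smul N2 F1.y) (Z.smul N1 F2.y))))))))

/-- twice the area bound `0.237`, times `65536 ^ 2`, rounded up -/
def MT : ℕ := 2035814499

def fin' (b : Bx) (A : Ag) (W p1 q1 n1 p2 q2 n2 s1 s2 : ℕ) : Bool :=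
  fin A (Nat.mul MT W) n1 n2 ⟨⟨b.x1, 65536⟩, ⟨b.y1, 65536⟩⟩ ⟨⟨b.x2, 65536⟩, ⟨b.y2, 65536⟩⟩
    (rot p1 q1 A.e1) (rot p2 q2 A.e2) (rot p1 q1 A.a1) (rot p2 q2 A.b2) (rot p1 q1 A.f1)
    (rot p2 q2 A.f2)
    (Z.add (Z.smul (Nat.add (Nat.mul p1 p2) (Nat.mul q1 q2)) A.ga)
      (Z.mul ⟨Nat.mul p1 q2, Nat.mul q1 p2⟩ A.de))
    (Z.sub (Z.smul (Nat.add (Nat.mul p1 p2) (Nat.mul q1 q2)) A.de)
      (Z.mul ⟨Nat.mul p1 q2, Nat.mul q1 p2⟩ A.ga))
    b.hx1 b.hy1 s1 (ee s1) b.hx2 b.hy2 s2 (ee s2)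

/-- the check at the end of a list of columns -/
def finA (b : Bx) (A : Ag) (W : ℕ) : Bool :=
  (Nat.ble 1 W).and ((Nat.ble b.u1 16384).and ((Nat.ble b.u2 16384).and
    (fin' b A W (pc b.u1) (qc b.u1) (nn b.u1) (pc b.u2) (qc b.u2) (nn b.u2)
      (sg b.u1 b.hu1) (sg b.u2 b.hu2))))

/-- the digit `i` in base `16` -/
def dg (c i : ℕ) : ℕ := Nat.mod (Nat.div c (Nat.pow 16 i)) 16

/-- bit `i` of a mask -/
def bit (m i : ℕ) : Bool := Nat.beq (Nat.mod (Nat.div m (Nat.pow 2 i)) 2) 1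

/-- the upper part of a column: corners `p`, `b`, `q` above the segment, or none -/
def upper (k mu w p b q : ℕ) (A : Ag) : Ag :=
  cond ((bit mu p).and ((bit mu b).and (bit mu q)))
    (addE k w q 0 (addE k w b q (addE k w p b (addE k w 1 p A)))) A

/-- the lower part of a column: corners `p`, `b`, `q` below the segment, or none -/
def lower (k ml w p b q : ℕ) (A : Ag) : Ag :=
  cond ((bit ml p).and ((bit ml b).and (bit ml q)))
    (addE k w q 1 (addE k w b q (addE k w p b (addE k w 0 p A)))) A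

/-- four arbitrary corners -/
def quad (k w P a Q b : ℕ) (A : Ag) : Ag :=
  cond ((Nat.ble P 8).and ((Nat.ble a 8).and ((Nat.ble Q 8).and (Nat.ble b 8))))
    (addE k w b P (addE k w Q b (addE k w a Q (addE k w P a A)))) A

/-- the columns are the digits of `c` in base `2 ^ 40`: weight (16 bits), then six corners -/
def cols (k mu ml : ℕ) (b : Bx) (n : ℕ) : ℕ → Ag → ℕ → Bool :=
  Nat.rec (motive := fun _ => ℕ → Ag → ℕ → Bool) (fun _ A W => finA b A W)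
    (fun _ ih c A W =>
      cond (Nat.beq c 0) (finA b A W)
        (ih (Nat.div c 1099511627776)
          (cond (Nat.beq (dg c 4) 9)
            (quad k (Nat.mod c 65536) (dg c 5) (dg c 6) (dg c 7) (dg c 8) A)
            (upper k mu (Nat.mod c 65536) (dg c 4) (dg c 5) (dg c 6)
              (lower k ml (Nat.mod c 65536) (dg c 7) (dg c 8) (dg c 9) A)))
          (Nat.add W (Nat.mod c 65536)))) n

/-- check the masks -/
def masks (k mu ml : ℕ) (b : Bx) (n : ℕ) : Bool :=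
  Nat.rec (motive := fun _ => Bool) true
    (fun i ih => (cond (bit mu (Nat.add i 2)) (upI k b (Nat.add i 2)) true).and
      ((cond (bit ml (Nat.add i 2)) (loI k b (Nat.add i 2)) true).and ih)) n

/-- the check of a leaf: two masks (9 bits each) and the columns -/
def leafOK (k : ℕ) (b : Bx) (c : ℕ) : Bool :=
  (masks k (Nat.mod c 512) (Nat.mod (Nat.div c 512) 512) b 7).and
    (cols k (Nat.mod c 512) (Nat.mod (Nat.div c 512) 512) b 20 (Nat.div c 262144) ag0 0)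

/-! ### the tree -/

/-- the search tree -/
inductive Tr where
  | L (c : ℕ) : Tr
  | S (d : ℕ) (l r : Tr) : Tr

/-- half of the width, rounded up -/
def hf (h : ℕ) : ℕ := Nat.div (Nat.succ h) 2

def lo (c h : ℕ) : ℕ := Nat.sub (Nat.add c (hf h)) h

def hi (c h : ℕ) : ℕ := Nat.sub (Nat.add c h) (hf h)

/-- the left half of a box in direction `d` -/
def left (d : ℕ) (b : Bx) : Bx :=
  cond (Nat.beq d 0) ⟨lo b.x1 b.hx1, hf b.hx1, b.y1, b.hy1, b.u1, b.hu1, b.x2, b.hx2, b.y2, b.hy2,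
    b.u2, b.hu2⟩
  (cond (Nat.beq d 1) ⟨b.x1, b.hx1, lo b.y1 b.hy1, hf b.hy1, b.u1, b.hu1, b.x2, b.hx2, b.y2,
    b.hy2, b.u2, b.hu2⟩
  (cond (Nat.beq d 2) ⟨b.x1, b.hx1, b.y1, b.hy1, lo b.u1 b.hu1, hf b.hu1, b.x2, b.hx2, b.y2,
    b.hy2, b.u2, b.hu2⟩
  (cond (Nat.beq d 3) ⟨b.x1, b.hx1, b.y1, b.hy1, b.u1, b.hu1, lo b.x2 b.hx2, hf b.hx2, b.y2,
    b.hy2, b.u2, b.hu2⟩
  (cond (Nat.beq d 4) ⟨b.x1, b.hx1, b.y1, b.hy1, b.u1, b.hu1, b.x2, b.hx2, lo b.y2 b.hy2,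
    hf b.hy2, b.u2, b.hu2⟩
    ⟨b.x1, b.hx1, b.y1, b.hy1, b.u1, b.hu1, b.x2, b.hx2, b.y2, b.hy2, lo b.u2 b.hu2,
      hf b.hu2⟩))))

/-- the right half of a box in direction `d` -/
def right (d : ℕ) (b : Bx) : Bx :=
  cond (Nat.beq d 0) ⟨hi b.x1 b.hx1, hf b.hx1, b.y1, b.hy1, b.u1, b.hu1, b.x2, b.hx2, b.y2, b.hy2,
    b.u2, b.hu2⟩
  (cond (Nat.beq d 1) ⟨b.x1, b.hx1, hi b.y1 b.hy1, hf b.hy1, b.u1, b.hu1, b.x2, b.hx2, b.y2,
    b.hy2, b.u2, b.hu2⟩
  (cond (Nat.beq d 2) ⟨b.x1, b.hx1, b.y1, b.hy1, hi b.u1 b.hu1, hf b.hu1, b.x2, b.hx2, b.y2,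
    b.hy2, b.u2, b.hu2⟩
  (cond (Nat.beq d 3) ⟨b.x1, b.hx1, b.y1, b.hy1, b.u1, b.hu1, hi b.x2 b.hx2, hf b.hx2, b.y2,
    b.hy2, b.u2, b.hu2⟩
  (cond (Nat.beq d 4) ⟨b.x1, b.hx1, b.y1, b.hy1, b.u1, b.hu1, b.x2, b.hx2, hi b.y2 b.hy2,
    hf b.hy2, b.u2, b.hu2⟩
    ⟨b.x1, b.hx1, b.y1, b.hy1, b.u1, b.hu1, b.x2, b.hx2, b.y2, b.hy2, hi b.u2 b.hu2,
      hf b.hu2⟩))))

/-- the check of a tree -/
noncomputable def chk (k : ℕ) (t : Tr) : Bx → Bool :=
  Tr.rec (motive := fun _ => Bx → Bool) (fun c b => leafOK k b c)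
    (fun d _ _ ihl ihr b => (ihl (left d b)).and (ihr (right d b))) t

/-- the box of all parameters -/
def root : Bx := ⟨98304, 38976, 65536, 31104, 2196, 2196, 98304, 38976, 65536, 31104, 8192, 8192⟩

end Pool.Agent.Worm59
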