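import Pool.Agent.Worm59.Snd4

/-!
# Areas of convex sets which contain given points
-/

set_option autoImplicit false

namespace Pool.Agent.Worm59

open MeasureTheory Set

/-- twice the signed area of a triangle -/
def D (P Q R : ℝ × ℝ) : ℝ := (Q.1 - P.1) * (R.2 - P.2) - (Q.2 - P.2) * (R.1 - P.1)

/-- the area is at least `x` -/
def AL (S : Set (ℝ × ℝ)) (x : ℝ) : Prop := ENNReal.ofReal x ≤ volume S

theorem AL.mono {S S' : Set (ℝ × ℝ)} {x x' : ℝ} (h : AL S x) (hS : S ⊆ S') (hx : x' ≤ x) :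
    AL S' x' := (ENNReal.ofReal_le_ofReal hx).trans (h.trans (measure_mono hS))

theorem AL.cut {S H : Set (ℝ × ℝ)} (hH : MeasurableSet H) {x y : ℝ} (hx : AL (S ∩ H) x)
    (hy : AL (S \ H) y) : AL S (x + y) := by
  refine ENNReal.ofReal_add_le.trans ?_
  rw [← measure_inter_add_sdiff S hH]
  exact add_le_add hx hy

/-- the open standard triangle -/
def std : Set (ℝ × ℝ) := {p | 0 < p.1 ∧ 0 < p.2 ∧ p.1 + p.2 < 1}

theorem volume_std : volume std = ENNReal.ofReal (1 / 2) := by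
  have h : std = regionBetween (fun _ => (0 : ℝ)) (fun x => 1 - x) (Ioo 0 1) := by
    ext p
    simp only [std, regionBetween, mem_ofPred_eq, mem_Ioo]
    constructor
    · rintro ⟨h1, h2, h3⟩
      exact ⟨⟨h1, by linarith⟩, h2, by linarith⟩
    · rintro ⟨⟨h1, -⟩, h2, h3⟩
      exact ⟨h1, h2, by linarith⟩
  have h1 : IntegrableOn (fun _ : ℝ => (0 : ℝ)) (Ioo 0 1) := by simp
  have h2 : IntegrableOn (fun x : ℝ => 1 - x) (Ioo 0 1) :=
    (ContinuousOn.integrableOn_Icc (by fun_prop)).mono_set Ioo_subset_Icc_self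
  rw [h, Measure.volume_eq_prod, volume_regionBetween_eq_integral h1 h2 measurableSet_Ioo
    (fun x hx => by have := hx.2; linarith)]
  congr 1
  simp only [Pi.sub_apply, sub_zero]
  rw [← integral_Ioc_eq_integral_Ioo, ← intervalIntegral.integral_of_le zero_le_one]
  rw [intervalIntegral.integral_sub (by simp) (by simp)]
  simp
  norm_num

/-- the linear map of a triangle -/
noncomputable def lin (a b : ℝ × ℝ) : ℝ × ℝ →ₗ[ℝ] ℝ × ℝ :=
  Matrix.toLin (Module.Basis.finTwoProd ℝ) (Module.Basis.finTwoProd ℝ) !![a.1, b.1; a.2, b.2]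

theorem lin_apply (a b p : ℝ × ℝ) : lin a b p = (p.1 * a.1 + p.2 * b.1, p.1 * a.2 + p.2 * b.2) := by
  rw [lin, Matrix.toLin_finTwoProd_apply]
  simp only [mul_comm]

theorem det_lin (a b : ℝ × ℝ) : LinearMap.det (lin a b) = a.1 * b.2 - b.1 * a.2 := by
  rw [lin, LinearMap.det_toLin, Matrix.det_fin_two_of]

/-- an open triangle -/
def tri (P Q R : ℝ × ℝ) : Set (ℝ × ℝ) := (fun p => P + p) '' (lin (Q - P) (R - P) '' std)

theorem AL_tri (P Q R : ℝ × ℝ) : AL (tri P Q R) (D P Q R / 2) := by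
  unfold AL tri
  rw [show (fun p => P + p) '' (lin (Q - P) (R - P) '' std)
    = (fun p => -P + p) ⁻¹' (lin (Q - P) (R - P) '' std) from Set.image_add_left,
    measure_preimage_add, Measure.addHaar_image_linearMap, det_lin, volume_std,
    ← ENNReal.ofReal_mul (abs_nonneg _)]
  refine ENNReal.ofReal_le_ofReal ?_
  have h : D P Q R = (Q - P).1 * (R - P).2 - (R - P).1 * (Q - P).2 := by
    simp only [D, Prod.fst_sub, Prod.snd_sub]; ring
  rw [← h]
  have := le_abs_self (D P Q R)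
  linarith

theorem mem_tri {P Q R X : ℝ × ℝ} (h : X ∈ tri P Q R) : ∃ a b c : ℝ, 0 < a ∧ 0 < b ∧ 0 < c ∧
    a + b + c = 1 ∧ X = a • P + b • Q + c • R := by
  obtain ⟨_, ⟨p, ⟨h1, h2, h3⟩, rfl⟩, rfl⟩ := h
  refine ⟨1 - p.1 - p.2, p.1, p.2, by linarith, h1, h2, by ring, ?_⟩
  rw [lin_apply]
  ext
  · simp only [Prod.fst_add, Prod.smul_fst, smul_eq_mul, Prod.fst_sub]; ring
  · simp only [Prod.snd_add, Prod.smul_snd, smul_eq_mul, Prod.snd_sub]; ring

theorem tri_subset {K : Set (ℝ × ℝ)} (hK : Convex ℝ K) {P Q R : ℝ × ℝ} (hP : P ∈ K) (hQ : Q ∈ K)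
    (hR : R ∈ K) : tri P Q R ⊆ K := by
  intro X hX
  obtain ⟨a, b, c, ha, hb, hc, h1, rfl⟩ := mem_tri hX
  have h2 : a • P + b • Q + c • R = (a + b) • ((a / (a + b)) • P + (b / (a + b)) • Q) + c • R := by
    have : a + b ≠ 0 := by positivity
    rw [smul_add, smul_smul, smul_smul, mul_div_cancel₀ _ this, mul_div_cancel₀ _ this]
  rw [h2]
  refine hK (hK hP hQ (by positivity) (by positivity) ?_) hR (by positivity) hc.le h1
  field_simp

/-- an affine function -/
structure Af (f : ℝ × ℝ → ℝ) : Prop where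
  meas : Measurable f
  comb : ∀ (a b c : ℝ) (P Q R : ℝ × ℝ), a + b + c = 1 →
    f (a • P + b • Q + c • R) = a * f P + b * f Q + c * f R

theorem Af.D (P Q : ℝ × ℝ) : Af (D P Q) := by
  refine ⟨?_, ?_⟩
  · unfold Worm59.D; fun_prop
  · intro a b c P' Q' R' h
    have ha : a = 1 - b - c := by linarith
    subst ha
    simp only [Worm59.D, Prod.fst_add, Prod.snd_add, Prod.smul_fst, Prod.smul_snd, smul_eq_mul]
    ring

theorem Af.y : Af (fun P => P.2) := by
  refine ⟨measurable_snd, ?_⟩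
  intro a b c P' Q' R' _
  simp only [Prod.snd_add, Prod.smul_snd, smul_eq_mul]

theorem tri_pos {f : ℝ × ℝ → ℝ} (hf : Af f) {P Q R X : ℝ × ℝ} (hX : X ∈ tri P Q R)
    (hP : 0 ≤ f P) (hQ : 0 ≤ f Q) (hR : 0 ≤ f R) (h : 0 < f P + f Q + f R) : 0 < f X := by
  obtain ⟨a, b, c, ha, hb, hc, h1, rfl⟩ := mem_tri hX
  rw [hf.comb a b c P Q R h1]
  have h2 := mul_nonneg ha.le hP
  have h3 := mul_nonneg hb.le hQ
  have h4 := mul_nonneg hc.le hR
  by_contra hcon
  have h5 : a * f P = 0 := by linarith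
  have h6 : b * f Q = 0 := by linarith
  have h7 : c * f R = 0 := by linarith
  have e1 := (mul_eq_zero.1 h5).resolve_left ha.ne'
  have e2 := (mul_eq_zero.1 h6).resolve_left hb.ne'
  have e3 := (mul_eq_zero.1 h7).resolve_left hc.ne'
  rw [e1, e2, e3] at h
  linarith

theorem tri_nonpos {f : ℝ × ℝ → ℝ} (hf : Af f) {P Q R X : ℝ × ℝ} (hX : X ∈ tri P Q R)
    (hP : f P ≤ 0) (hQ : f Q ≤ 0) (hR : f R ≤ 0) : f X ≤ 0 := by
  obtain ⟨a, b, c, ha, hb, hc, h1, rfl⟩ := mem_tri hX
  rw [hf.comb a b c P Q R h1]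
  have h2 := mul_nonpos_of_nonneg_of_nonpos ha.le hP
  have h3 := mul_nonpos_of_nonneg_of_nonpos hb.le hQ
  have h4 := mul_nonpos_of_nonneg_of_nonpos hc.le hR
  linarith

/-- cut a convex set into a triangle and the rest -/
theorem AL.cut_tri {K : Set (ℝ × ℝ)} (hK : Convex ℝ K) {f : ℝ × ℝ → ℝ} (hf : Af f)
    {P Q R : ℝ × ℝ} (hP : P ∈ K) (hQ : Q ∈ K) (hR : R ∈ K) (h1 : 0 ≤ f P) (h2 : 0 ≤ f Q)
    (h3 : 0 ≤ f R) (h : 0 < f P + f Q + f R) {y : ℝ} (hy : AL (K ∩ {X | f X ≤ 0}) y) :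
    AL K (D P Q R / 2 + y) := by
  have hm : MeasurableSet {X | 0 < f X} := measurableSet_lt measurable_const hf.meas
  refine AL.cut hm ?_ ?_
  · exact (AL_tri P Q R).mono (fun X hX => ⟨tri_subset hK hP hQ hR hX, tri_pos hf hX h1 h2 h3 h⟩)
      le_rfl
  · refine hy.mono ?_ le_rfl
    rintro X ⟨hX, hX'⟩
    exact ⟨hX, fun h => absurd (show 0 < f X from h) (not_lt.2 (show f X ≤ 0 from hX'))⟩

theorem AL_in {K : Set (ℝ × ℝ)} (hK : Convex ℝ K) {P Q R : ℝ × ℝ} (hP : P ∈ K) (hQ : Q ∈ K)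
    (hR : R ∈ K) : AL K (D P Q R / 2) := (AL_tri P Q R).mono (tri_subset hK hP hQ hR) le_rfl

theorem AL_in' {K : Set (ℝ × ℝ)} (hK : Convex ℝ K) {f : ℝ × ℝ → ℝ} (hf : Af f) {P Q R : ℝ × ℝ}
    (hP : P ∈ K) (hQ : Q ∈ K) (hR : R ∈ K) (h1 : f P ≤ 0) (h2 : f Q ≤ 0) (h3 : f R ≤ 0) :
    AL (K ∩ {X | f X ≤ 0}) (D P Q R / 2) :=
  (AL_tri P Q R).mono (fun _ hX => ⟨tri_subset hK hP hQ hR hX, tri_nonpos hf hX h1 h2 h3⟩) le_rfl

/-- four points -/
theorem AL_quad {K : Set (ℝ × ℝ)} (hK : Convex ℝ K) {P a Q b : ℝ × ℝ} (hP : P ∈ K) (ha : a ∈ K)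
    (hQ : Q ∈ K) (hb : b ∈ K) : AL K ((D P a Q + D P Q b) / 2) := by
  have e1 : D P a Q = -D P Q a := by unfold D; ring
  have e2 : D P Q P = 0 := by unfold D; ring
  have e3 : D P Q Q = 0 := by unfold D; ring
  rcases le_or_gt (D P Q b) 0 with h1 | h1
  · exact (AL_in hK hP ha hQ).mono subset_rfl (by linarith)
  rcases le_or_gt 0 (D P Q a) with h2 | h2
  · exact (AL_in hK hP hQ hb).mono subset_rfl (by linarith)
  have := AL.cut_tri hK (Af.D P Q) hP hQ hb (by rw [e2]) (by rw [e3]) h1.le (by rw [e2, e3]; linarith)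
    (AL_in' hK (Af.D P Q) hP ha hQ (by rw [e2]) h2.le (by rw [e3]))
  exact this.mono subset_rfl (by linarith)

/-- a triangle with one more point -/
theorem AL_one {K : Set (ℝ × ℝ)} (hK : Convex ℝ K) {A B C P : ℝ × ℝ} (hA : A ∈ K) (hB : B ∈ K)
    (hC : C ∈ K) (hP : P ∈ K) (h : 0 ≤ D A B C) : AL K ((D A B C + D B P C) / 2) := by
  have e1 : D B P C = D C B P := by unfold D; ring
  have e2 : D C B C = 0 := by unfold D; ring
  have e3 : D C B B = 0 := by unfold D; ring
  have e4 : D C B A = -D A B C := by unfold D; ring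
  rcases le_or_gt (D B P C) 0 with h1 | h1
  · exact (AL_in hK hA hB hC).mono subset_rfl (by linarith)
  have := AL.cut_tri hK (Af.D C B) hB hP hC (by rw [e3]) (by rw [← e1]; exact h1.le) (by rw [e2])
    (by rw [e2, e3, ← e1]; linarith)
    (AL_in' hK (Af.D C B) hA hB hC (by rw [e4]; linarith) (by rw [e3]) (by rw [e2]))
  exact this.mono subset_rfl (by linarith)

/-- a triangle with two more points -/
theorem AL_pent {K : Set (ℝ × ℝ)} (hK : Convex ℝ K) {A B C P Q : ℝ × ℝ} (hA : A ∈ K) (hB : B ∈ K)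
    (hC : C ∈ K) (hP : P ∈ K) (hQ : Q ∈ K) (h : 0 < D A B C) :
    AL K ((D A B C + D B P C + D C Q A) / 2) := by
  have e1 : D B P C = D C B P := by unfold D; ring
  have e2 : D C Q A = D A C Q := by unfold D; ring
  have e3 : D C B A = -D A B C := by unfold D; ring
  have e4 : D A C B = -D A B C := by unfold D; ring
  have z1 : D C B C = 0 := by unfold D; ring
  have z2 : D C B B = 0 := by unfold D; ring
  have z3 : D A C A = 0 := by unfold D; ring
  have z4 : D A C C = 0 := by unfold D; ring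
  -- one point is not needed
  rcases le_or_gt (D C Q A) 0 with h1 | h1
  · exact (AL_one hK hA hB hC hP h.le).mono subset_rfl (by linarith)
  rcases le_or_gt (D B P C) 0 with h2 | h2
  · have r1 : D C A B = D A B C := by unfold D; ring
    have r2 : D A Q C = -D C Q A := by unfold D; ring
    -- the triangle `C A B` with the point `Q` beyond the side `C A`
    have r3 : D B C A = D A B C := by unfold D; ring
    have := AL_one hK (A := B) (B := C) (C := A) hB hC hA hQ (by rw [r3]; exact h.le)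
    rw [r3] at this
    exact this.mono subset_rfl (by linarith)
  -- both are needed
  have hA' : D C B A ≤ 0 := by rw [e3]; linarith
  have hB' : D A C B ≤ 0 := by rw [e4]; linarith
  rcases le_or_gt (D A C P) 0 with h3 | h3
  · -- cut off the triangle `C Q A`
    have hKc : Convex ℝ (K ∩ {X | D A C X ≤ 0}) := by
      refine hK.inter ?_
      intro X hX Y hY a b ha hb hab
      have := (Af.D A C).comb a b 0 X Y X (by linarith)
      simp only [zero_smul, add_zero, zero_mul] at this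
      show D A C (a • X + b • Y) ≤ 0
      rw [this]
      have h4 := mul_nonpos_of_nonneg_of_nonpos ha hX
      have h5 := mul_nonpos_of_nonneg_of_nonpos hb hY
      linarith
    have := AL.cut_tri hK (Af.D A C) hC hQ hA (by rw [z4]) (by rw [← e2]; exact h1.le) (by rw [z3])
      (by rw [z3, z4, ← e2]; linarith)
      (AL_one hKc (A := A) (B := B) (C := C) (P := P) ⟨hA, z3.le⟩ ⟨hB, hB'⟩ ⟨hC, z4.le⟩
        ⟨hP, h3⟩ h.le)
    exact this.mono subset_rfl (by linarith)
  rcases le_or_gt (D C B Q) 0 with h4 | h4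
  · -- cut off the triangle `B P C`
    have hKc : Convex ℝ (K ∩ {X | D C B X ≤ 0}) := by
      refine hK.inter ?_
      intro X hX Y hY a b ha hb hab
      have := (Af.D C B).comb a b 0 X Y X (by linarith)
      simp only [zero_smul, add_zero, zero_mul] at this
      show D C B (a • X + b • Y) ≤ 0
      rw [this]
      have h4 := mul_nonpos_of_nonneg_of_nonpos ha hX
      have h5 := mul_nonpos_of_nonneg_of_nonpos hb hY
      linarith
    have r3 : D B C A = D A B C := by unfold D; ring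
    have := AL.cut_tri hK (Af.D C B) hB hP hC (by rw [z2]) (by rw [← e1]; exact h2.le) (by rw [z1])
      (by rw [z1, z2, ← e1]; linarith)
      (AL_one hKc (A := B) (B := C) (C := A) (P := Q) ⟨hB, z2.le⟩ ⟨hC, z1.le⟩ ⟨hA, hA'⟩
        ⟨hQ, h4⟩ (by rw [r3]; exact h.le))
    rw [r3] at this
    exact this.mono subset_rfl (by linarith)
  -- both points are beyond `C`
  have s1 : D A B P = D A B C + D C B P + D A C P := by unfold D; ring
  have s2 : D A B Q = D A B C + D C B Q + D A C Q := by unfold D; ring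
  rcases le_or_gt (D A C Q) (D A C P) with h5 | h5
  · exact (AL_in hK hA hB hP).mono subset_rfl (by linarith)
  rcases le_or_gt (D C B P) (D C B Q) with h6 | h6
  · exact (AL_in hK hA hB hQ).mono subset_rfl (by linarith)
  have s3 : D A B C * D P Q A = D A B C * (D A C Q - D A C P) + (D C B P * D A C Q
      - D A C P * D C B Q) := by unfold D; ring
  have s4 : D A C Q - D A C P ≤ D P Q A := by
    have h7 : D A C P * D C B Q ≤ D C B P * D A C Q := by nlinarith
    have h8 : D A B C * (D A C Q - D A C P) ≤ D A B C * D P Q A := by rw [s3]; linarith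
    exact le_of_mul_le_mul_left h8 h
  have s5 : D A P Q = D P Q A := by unfold D; ring
  have s6 : D A P A = 0 := by unfold D; ring
  have s7 : D A P P = 0 := by unfold D; ring
  have s8 : D A P B = -D A B P := by unfold D; ring
  have := AL.cut_tri hK (Af.D A P) hP hQ hA (by rw [s7]) (by rw [s5]; linarith) (by rw [s6])
    (by rw [s5, s6, s7]; linarith)
    (AL_in' hK (Af.D A P) hA hB hP (by rw [s6]) (by rw [s8]; linarith) (by rw [s7]))
  exact this.mono subset_rfl (by linarith)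

end Pool.Agent.Worm59
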