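import Pool.Agent.Worm59.Geo

/-!
# The area of a convex set bounds the sums of determinants
-/

set_option autoImplicit false

namespace Pool.Agent.Worm59

open MeasureTheory Set

theorem convex_up : Convex ℝ {X : ℝ × ℝ | 0 ≤ X.2} := by
  intro X hX Y hY a b ha hb _
  have hX' : 0 ≤ X.2 := hX
  have hY' : 0 ≤ Y.2 := hY
  show 0 ≤ (a • X + b • Y).2
  simp only [Prod.snd_add, Prod.smul_snd, smul_eq_mul]
  positivity

theorem convex_lo : Convex ℝ {X : ℝ × ℝ | X.2 ≤ 0} := by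
  intro X hX Y hY a b ha hb _
  have hX' : X.2 ≤ 0 := hX
  have hY' : Y.2 ≤ 0 := hY
  show (a • X + b • Y).2 ≤ 0
  simp only [Prod.snd_add, Prod.smul_snd, smul_eq_mul]
  have h1 := mul_nonpos_of_nonneg_of_nonpos ha hX'
  have h2 := mul_nonpos_of_nonneg_of_nonpos hb hY'
  linarith

theorem AL_up {K : Set (ℝ × ℝ)} (hK : Convex ℝ K) (hA : ((0 : ℝ), (0 : ℝ)) ∈ K)
    (hB : ((65536 : ℝ), (0 : ℝ)) ∈ K) {P C Q : ℝ × ℝ} (hP : P ∈ K) (hC : C ∈ K) (hQ : Q ∈ K)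
    (yP : 0 ≤ P.2) (yC : 0 ≤ C.2) (yQ : 0 ≤ Q.2) :
    AL (K ∩ {X | 0 ≤ X.2}) ((65536 * P.2 + (P.1 * C.2 - P.2 * C.1)
      + (C.1 * Q.2 - C.2 * Q.1)) / 2) := by
  have hK' := hK.inter convex_up
  have hA' : ((0 : ℝ), (0 : ℝ)) ∈ K ∩ {X | 0 ≤ X.2} := ⟨hA, le_refl (0 : ℝ)⟩
  have hB' : ((65536 : ℝ), (0 : ℝ)) ∈ K ∩ {X | 0 ≤ X.2} := ⟨hB, le_refl (0 : ℝ)⟩
  have hP' : P ∈ K ∩ {X | 0 ≤ X.2} := ⟨hP, yP⟩
  have hC' : C ∈ K ∩ {X | 0 ≤ X.2} := ⟨hC, yC⟩
  have hQ' : Q ∈ K ∩ {X | 0 ≤ X.2} := ⟨hQ, yQ⟩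
  rcases yC.lt_or_eq with h | h
  · have := AL_pent hK' hA' hB' hC' hP' hQ' (by unfold D; simp; exact h)
    refine this.mono subset_rfl (le_of_eq ?_)
    unfold D
    ring
  · rw [← h]
    rcases le_or_gt C.1 0 with h1 | h1
    · refine (AL_in hK' hC' hB' hP').mono subset_rfl ?_
      have := mul_nonpos_of_nonpos_of_nonneg h1 yQ
      unfold D
      rw [← h]
      linarith
    rcases le_or_gt 65536 C.1 with h2 | h2
    · refine (AL_in hK' hA' hC' hQ').mono subset_rfl ?_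
      have := mul_nonneg (sub_nonneg.2 h2) yP
      unfold D
      rw [← h]
      linarith
    · rcases le_total P.2 Q.2 with h3 | h3
      · refine (AL_in hK' hA' hB' hQ').mono subset_rfl ?_
        have := mul_nonneg (sub_nonneg.2 h2.le) (sub_nonneg.2 h3)
        unfold D
        linarith
      · refine (AL_in hK' hA' hB' hP').mono subset_rfl ?_
        have := mul_nonneg h1.le (sub_nonneg.2 h3)
        unfold D
        linarith

theorem AL_lo {K : Set (ℝ × ℝ)} (hK : Convex ℝ K) (hA : ((0 : ℝ), (0 : ℝ)) ∈ K)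
    (hB : ((65536 : ℝ), (0 : ℝ)) ∈ K) {P C Q : ℝ × ℝ} (hP : P ∈ K) (hC : C ∈ K) (hQ : Q ∈ K)
    (yP : P.2 ≤ 0) (yC : C.2 ≤ 0) (yQ : Q.2 ≤ 0) :
    AL (K ∩ {X | X.2 ≤ 0}) (((P.1 * C.2 - P.2 * C.1) + (C.1 * Q.2 - C.2 * Q.1)
      - 65536 * Q.2) / 2) := by
  have hK' := hK.inter convex_lo
  have hA' : ((0 : ℝ), (0 : ℝ)) ∈ K ∩ {X | X.2 ≤ 0} := ⟨hA, le_refl (0 : ℝ)⟩
  have hB' : ((65536 : ℝ), (0 : ℝ)) ∈ K ∩ {X | X.2 ≤ 0} := ⟨hB, le_refl (0 : ℝ)⟩
  have hP' : P ∈ K ∩ {X | X.2 ≤ 0} := ⟨hP, yP⟩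
  have hC' : C ∈ K ∩ {X | X.2 ≤ 0} := ⟨hC, yC⟩
  have hQ' : Q ∈ K ∩ {X | X.2 ≤ 0} := ⟨hQ, yQ⟩
  rcases yC.lt_or_eq with h | h
  · have := AL_pent hK' hB' hA' hC' hP' hQ' (by unfold D; simp; linarith)
    refine this.mono subset_rfl (le_of_eq ?_)
    unfold D
    ring
  · rw [h]
    rcases le_or_gt C.1 0 with h1 | h1
    · refine (AL_in hK' hB' hC' hQ').mono subset_rfl ?_
      have := mul_nonneg_of_nonpos_of_nonpos yP h1
      unfold D
      rw [h]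
      linarith
    rcases le_or_gt 65536 C.1 with h2 | h2
    · refine (AL_in hK' hC' hA' hP').mono subset_rfl ?_
      have := mul_nonpos_of_nonneg_of_nonpos (sub_nonneg.2 h2) yQ
      unfold D
      rw [h]
      linarith
    · rcases le_total P.2 Q.2 with h3 | h3
      · refine (AL_in hK' hB' hA' hP').mono subset_rfl ?_
        have := mul_nonneg (sub_nonneg.2 h2.le) (sub_nonneg.2 h3)
        unfold D
        linarith
      · refine (AL_in hK' hB' hA' hQ').mono subset_rfl ?_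
        have := mul_nonneg h1.le (sub_nonneg.2 h3)
        unfold D
        linarith

theorem volume_line : volume {X : ℝ × ℝ | X.2 = 0} = 0 := by
  have h : {X : ℝ × ℝ | X.2 = 0} = (univ : Set ℝ) ×ˢ {(0 : ℝ)} := by
    ext X
    simp
  rw [h, Measure.volume_eq_prod, Measure.prod_prod]
  simp

theorem AL_both {K : Set (ℝ × ℝ)} {x y : ℝ} (h1 : AL (K ∩ {X | 0 ≤ X.2}) x)
    (h2 : AL (K ∩ {X | X.2 ≤ 0}) y) : AL K (x + y) := by
  have hm : MeasurableSet {X : ℝ × ℝ | 0 ≤ X.2} := measurableSet_le measurable_const measurable_snd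
  refine AL.cut hm h1 ?_
  refine h2.trans ?_
  have h3 : K ∩ {X : ℝ × ℝ | X.2 ≤ 0} ⊆ (K \ {X : ℝ × ℝ | 0 ≤ X.2}) ∪ {X | X.2 = 0} := by
    rintro X ⟨hX, hX'⟩
    have hX'' : X.2 ≤ 0 := hX'
    rcases hX''.lt_or_eq with h | h
    · exact Or.inl ⟨hX, fun h' => absurd (show (0 : ℝ) ≤ X.2 from h') (not_le.2 h)⟩
    · exact Or.inr h
  refine (measure_mono h3).trans ((measure_union_le _ _).trans ?_)
  rw [volume_line, add_zero]

theorem le_of_AL {K : Set (ℝ × ℝ)} (hfin : volume K ≠ ⊤) {x : ℝ} (h : AL K (x / 2)) :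
    x ≤ 2 * (volume K).toReal := by
  have := (ENNReal.ofReal_le_iff_le_toReal hfin).1 h
  linarith

theorem good_of {K : Set (ℝ × ℝ)} (hK : Convex ℝ K) (hfin : volume K ≠ ⊤) {k : ℕ} {t : St}
    (hmem : ∀ i ≤ 8, (px k t i, py k t i) ∈ K) : Good k t (2 * (volume K).toReal) := by
  have hA : ((0 : ℝ), (0 : ℝ)) ∈ K := by
    have := hmem 0 (by norm_num)
    simpa [px, py] using this
  have hB : ((65536 : ℝ), (0 : ℝ)) ∈ K := by
    have := hmem 1 (by norm_num)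
    simpa [px, py] using this
  have x0 : px k t 0 = 0 := by simp [px]
  have y0 : py k t 0 = 0 := by simp [py]
  have x1 : px k t 1 = 65536 := by simp [px]
  have y1 : py k t 1 = 0 := by simp [py]
  constructor
  · intro P a Q b hP ha hQ hb
    refine le_of_AL hfin ((AL_quad hK (hmem P hP) (hmem a ha) (hmem Q hQ) (hmem b hb)).mono
      subset_rfl (le_of_eq ?_))
    unfold Q2 dd D
    ring
  · positivity
  · intro p b q hp hb hq yp yb yq
    refine le_of_AL hfin ((AL_up hK hA hB (hmem p hp) (hmem b hb) (hmem q hq) yp yb yq).mono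
      inter_subset_left (le_of_eq ?_))
    unfold U2 dd
    rw [x0, y0, x1, y1]
    ring
  · intro p b q hp hb hq yp yb yq
    refine le_of_AL hfin ((AL_lo hK hA hB (hmem p hp) (hmem b hb) (hmem q hq) yp yb yq).mono
      inter_subset_left (le_of_eq ?_))
    unfold L2 dd
    rw [x0, y0, x1, y1]
    ring
  · intro p b q p' b' q' hp hb hq yp yb yq hp' hb' hq' yp' yb' yq'
    refine le_of_AL hfin ((AL_both (AL_up hK hA hB (hmem p hp) (hmem b hb) (hmem q hq) yp yb yq)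
      (AL_lo hK hA hB (hmem p' hp') (hmem b' hb') (hmem q' hq') yp' yb' yq')).mono
      subset_rfl (le_of_eq ?_))
    unfold U2 L2 dd
    rw [x0, y0, x1, y1]
    ring

end Pool.Agent.Worm59
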