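import Pool.Agent.Worm59.Top
import Pool.Agent.Worm59.GoodK

/-!
# Normal position
-/

set_option autoImplicit false

namespace Pool.Agent.Worm59

open MeasureTheory Set

/-- `K` contains the segment, the triangle and the trapezoid -/
structure Cf (K : Set (ℝ × ℝ)) (c s x y c' s' x' y' : ℝ) : Prop where
  conv : Convex ℝ K
  h1 : c ^ 2 + s ^ 2 = 1
  h2 : c' ^ 2 + s' ^ 2 = 1
  S0 : ((0 : ℝ), (0 : ℝ)) ∈ K
  S1 : ((65536 : ℝ), (0 : ℝ)) ∈ K
  D2 : (x - s * (32768 / 3 * √3), y + c * (32768 / 3 * √3)) ∈ K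
  D3 : (x - c * 16384 + s * (16384 / 3 * √3), y - s * 16384 - c * (16384 / 3 * √3)) ∈ K
  D4 : (x + c * 16384 + s * (16384 / 3 * √3), y + s * 16384 - c * (16384 / 3 * √3)) ∈ K
  T5 : (x' - c' * 10922 + s' * 11141, y' - s' * 10922 - c' * 11141) ∈ K
  T6 : (x' + c' * 10922 + s' * 11141, y' + s' * 10922 - c' * 11141) ∈ K
  T7 : (x' + c' * 14052 - s' * 10479, y' + s' * 14052 + c' * 10479) ∈ K
  T8 : (x' - c' * 14052 - s' * 10479, y' - s' * 14052 + c' * 10479) ∈ K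

theorem image_spec {K : Set (ℝ × ℝ)} (hK : Convex ℝ K) (a b v : ℝ × ℝ)
    (hd : |a.1 * b.2 - b.1 * a.2| = 1) : ∃ K' : Set (ℝ × ℝ), Convex ℝ K' ∧
      volume K' = volume K ∧ ∀ p ∈ K, ∀ q : ℝ × ℝ, q.1 = v.1 + (p.1 * a.1 + p.2 * b.1) →
        q.2 = v.2 + (p.1 * a.2 + p.2 * b.2) → q ∈ K' := by
  refine ⟨(fun p => v + p) '' (lin a b '' K), ?_, ?_, ?_⟩
  · have h := (hK.linear_image (lin a b)).translate v
    exact h
  · rw [show (fun p => v + p) '' (lin a b '' K)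
      = (fun p => -v + p) ⁻¹' (lin a b '' K) from Set.image_add_left,
      measure_preimage_add, Measure.addHaar_image_linearMap, det_lin, hd, ENNReal.ofReal_one,
      one_mul]
  · intro p hp q h1 h2
    refine ⟨lin a b p, ⟨p, hp, rfl⟩, ?_⟩
    show v + lin a b p = q
    rw [lin_apply]
    ext
    · rw [h1]; rfl
    · rw [h2]; rfl

/-- the bound for the triangle in the direction `(c, s)` -/
def PP (c s : ℝ) : Prop := ∀ (K : Set (ℝ × ℝ)) (x y c' s' x' y' : ℝ), Cf K c s x y c' s' x' y' →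
  volume K ≠ ⊤ → 2035814499 ≤ 2 * (volume K).toReal

/-- change of the labels -/
theorem PP.relabel {c s : ℝ} (h : PP (-c / 2 - √3 / 2 * s) (-s / 2 + √3 / 2 * c)) : PP c s := by
  intro K x y c' s' x' y' hc hf
  have e3 : √3 * √3 = 3 := Real.mul_self_sqrt (by norm_num)
  refine h K x y c' s' x' y' ?_ hf
  refine ⟨hc.conv, ?_, hc.h2, hc.S0, hc.S1, ?_, ?_, ?_, hc.T5, hc.T6, hc.T7, hc.T8⟩
  · linear_combination hc.h1 + (s ^ 2 / 4 + c ^ 2 / 4) * e3
  · convert hc.D3 using 2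
    · linear_combination (-16384 / 3 * c) * e3
    · linear_combination (-16384 / 3 * s) * e3
  · convert hc.D4 using 2
    · linear_combination (8192 / 3 * c) * e3
    · linear_combination (8192 / 3 * s) * e3
  · convert hc.D2 using 2
    · linear_combination (8192 / 3 * c) * e3
    · linear_combination (8192 / 3 * s) * e3

/-- reflection in the midpoint of the segment -/
theorem PP.point {c s : ℝ} (h : PP (-c) (-s)) : PP c s := by
  intro K x y c' s' x' y' hc hf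
  obtain ⟨K', k1, k2, k3⟩ := image_spec hc.conv (-1, 0) (0, -1) (65536, 0) (by norm_num)
  rw [← k2] at hf ⊢
  refine h K' (65536 - x) (-y) (-c') (-s') (65536 - x') (-y') ?_ hf
  refine ⟨k1, by linear_combination hc.h1, by linear_combination hc.h2,
    k3 _ hc.S1 _ ?_ ?_, k3 _ hc.S0 _ ?_ ?_, k3 _ hc.D2 _ ?_ ?_, k3 _ hc.D3 _ ?_ ?_,
    k3 _ hc.D4 _ ?_ ?_, k3 _ hc.T5 _ ?_ ?_, k3 _ hc.T6 _ ?_ ?_, k3 _ hc.T7 _ ?_ ?_,
    k3 _ hc.T8 _ ?_ ?_⟩ <;> simp only <;> ring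

/-- reflection of the segment -/
theorem PP.refl {c s : ℝ} (h : PP c (-s)) : PP c s := by
  intro K x y c' s' x' y' hc hf
  obtain ⟨K', k1, k2, k3⟩ := image_spec hc.conv (-1, 0) (0, 1) (65536, 0) (by norm_num)
  rw [← k2] at hf ⊢
  refine h K' (65536 - x) y c' (-s') (65536 - x') y' ?_ hf
  refine ⟨k1, by linear_combination hc.h1, by linear_combination hc.h2,
    k3 _ hc.S1 _ ?_ ?_, k3 _ hc.S0 _ ?_ ?_, k3 _ hc.D2 _ ?_ ?_, k3 _ hc.D4 _ ?_ ?_,
    k3 _ hc.D3 _ ?_ ?_, k3 _ hc.T6 _ ?_ ?_, k3 _ hc.T5 _ ?_ ?_, k3 _ hc.T8 _ ?_ ?_,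
    k3 _ hc.T7 _ ?_ ?_⟩ <;> simp only <;> ring

theorem PP.six {c s : ℝ} (h : PP (c / 2 + √3 / 2 * s) (s / 2 - √3 / 2 * c)) : PP c s := by
  refine PP.relabel (PP.point ?_)
  convert h using 1 <;> ring

theorem PP.norm (h : ∀ c s : ℝ, c ^ 2 + s ^ 2 = 1 → 0 ≤ s → √3 * s ≤ c → PP c s)
    (c s : ℝ) : PP c s := by
  have e3 : √3 * √3 = 3 := Real.mul_self_sqrt (by norm_num)
  have h3 : 0 < √3 := Real.sqrt_pos.2 (by norm_num)
  -- first the strip
  have A : ∀ c s : ℝ, c ^ 2 + s ^ 2 = 1 → √3 * s ≤ c → -(√3 * s) ≤ c → PP c s := by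
    intro c s h0 h1 h2
    rcases le_total 0 s with hs | hs
    · exact h c s h0 hs h1
    · exact PP.refl (h c (-s) (by linear_combination h0) (by linarith) (by linarith))
  have B : ∀ c s : ℝ, c ^ 2 + s ^ 2 = 1 → 0 ≤ s → 0 ≤ c → PP c s := by
    intro c s h0 h1 h2
    rcases le_total (√3 * s) c with h4 | h4
    · exact h c s h0 h1 h4
    · refine PP.six (A _ _ ?_ ?_ ?_)
      · linear_combination h0 + (s ^ 2 / 4 + c ^ 2 / 4) * e3
      · nlinarith
      · nlinarith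
  have C : ∀ c s : ℝ, c ^ 2 + s ^ 2 = 1 → 0 ≤ s → PP c s := by
    intro c s h0 h1
    rcases le_total 0 c with h2 | h2
    · exact B c s h0 h1 h2
    · refine PP.refl (PP.point ?_)
      rw [neg_neg]
      exact B _ _ (by linear_combination h0) h1 (by linarith)
  intro K x y c' s' x' y' hc hf
  rcases le_total 0 s with h1 | h1
  · exact C c s hc.h1 h1 K x y c' s' x' y' hc hf
  · exact PP.point (C _ _ (by linear_combination hc.h1) (by linarith)) K x y c' s' x' y' hc hf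

/-! ### bounds -/

theorem cross_le {K : Set (ℝ × ℝ)} (hK : Convex ℝ K) (hf : volume K ≠ ⊤) {P a Q b : ℝ × ℝ}
    (hP : P ∈ K) (ha : a ∈ K) (hQ : Q ∈ K) (hb : b ∈ K) :
    (Q.1 - P.1) * (b.2 - a.2) - (Q.2 - P.2) * (b.1 - a.1) ≤ 2 * (volume K).toReal := by
  refine le_of_AL hf ((AL_quad hK hP ha hQ hb).mono subset_rfl (le_of_eq ?_))
  unfold D
  ring

theorem y_bound {K : Set (ℝ × ℝ)} (hK : Convex ℝ K) (hf : volume K ≠ ⊤)
    (hA : ((0 : ℝ), (0 : ℝ)) ∈ K) (hB : ((65536 : ℝ), (0 : ℝ)) ∈ K)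
    (hv : 2 * (volume K).toReal < 2035814499) {P : ℝ × ℝ} (hP : P ∈ K) : |P.2| ≤ 31104 := by
  have h1 := cross_le hK hf hA hA hB hP
  have h2 := cross_le hK hf hA hP hB hA
  simp only at h1 h2
  rw [abs_le]
  constructor <;> linarith

theorem x_bound {K : Set (ℝ × ℝ)} {c s x y c' s' x' y' : ℝ} (hc : Cf K c s x y c' s' x' y')
    (hf : volume K ≠ ⊤) (h0 : 0 ≤ s) (h1 : √3 * s ≤ c)
    (hv : 2 * (volume K).toReal < 2035814499) {P Q : ℝ × ℝ} (hP : P ∈ K) (hQ : Q ∈ K) :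
    P.1 - Q.1 ≤ 71744 := by
  have e3 : √3 * √3 = 3 := Real.mul_self_sqrt (by norm_num)
  have h3 : 0 < √3 := Real.sqrt_pos.2 (by norm_num)
  have g3 : 1.7320508 < √3 := by
    rw [Real.lt_sqrt (by norm_num)]; norm_num
  have a1 := cross_le hc.conv hf hQ hc.D3 hP hc.D2
  have a2 := cross_le hc.conv hf hQ hc.D4 hP hc.D2
  simp only at a1 a2
  have c0 : 0 ≤ c := le_trans (by positivity) h1
  have c1 : c ≤ 1 := by nlinarith [hc.h1]
  have b1 := mul_le_mul_of_nonneg_left a1 (show 0 ≤ c + √3 * s by positivity)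
  have b2 := mul_le_mul_of_nonneg_left a2 (show 0 ≤ c - √3 * s by linarith)
  have v0 : 0 ≤ (volume K).toReal := ENNReal.toReal_nonneg
  have b3 : 32768 * √3 * (P.1 - Q.1) ≤ 2 * c * (2 * (volume K).toReal) := by
    have : 32768 * √3 * (P.1 - Q.1) = (c + √3 * s) * ((P.1 - Q.1) * (y + c * (32768 / 3 * √3)
        - (y - s * 16384 - c * (16384 / 3 * √3))) - (P.2 - Q.2) * (x - s * (32768 / 3 * √3)
        - (x - c * 16384 + s * (16384 / 3 * √3)))) + (c - √3 * s) * ((P.1 - Q.1)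
        * (y + c * (32768 / 3 * √3) - (y + s * 16384 - c * (16384 / 3 * √3)))
        - (P.2 - Q.2) * (x - s * (32768 / 3 * √3) - (x + c * 16384 + s * (16384 / 3 * √3)))) := by
      linear_combination (-32768 * √3 * (P.1 - Q.1)) * hc.h1
    rw [this]
    linarith
  have b4 : 2 * c * (2 * (volume K).toReal) ≤ 2 * 2035814499 := by nlinarith
  by_contra hcon
  push Not at hcon
  have : 32768 * 1.7320508 * 71744 < 32768 * √3 * (P.1 - Q.1) := by
    apply mul_lt_mul'' _ hcon (by norm_num) (by norm_num)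
    linarith
  norm_num at this
  linarith

theorem three_mem {K : Set (ℝ × ℝ)} (hK : Convex ℝ K) {P Q R : ℝ × ℝ} (hP : P ∈ K) (hQ : Q ∈ K)
    (hR : R ∈ K) {a b c : ℝ} (ha : 0 ≤ a) (hb : 0 ≤ b) (hc : 0 < c) (h : a + b + c = 1)
    {X : ℝ × ℝ} (h1 : X.1 = a * P.1 + b * Q.1 + c * R.1)
    (h2 : X.2 = a * P.2 + b * Q.2 + c * R.2) : X ∈ K := by
  rcases eq_or_lt_of_le hb with h0 | h0
  · subst h0
    have := hK hP hR ha hc.le (by linarith)
    convert this using 1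
    ext
    · simp only [h1, Prod.fst_add, Prod.smul_fst, smul_eq_mul]; ring
    · simp only [h2, Prod.snd_add, Prod.smul_snd, smul_eq_mul]; ring
  · have h3 : (b / (b + c)) • Q + (c / (b + c)) • R ∈ K :=
      hK hQ hR (by positivity) (by positivity) (by field_simp)
    have := hK hP h3 ha (by positivity : 0 ≤ b + c) (by linarith)
    convert this using 1
    have h4 : b + c ≠ 0 := by positivity
    ext
    · simp only [h1, Prod.fst_add, Prod.smul_fst, smul_eq_mul]; field_simp; ring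
    · simp only [h2, Prod.snd_add, Prod.smul_snd, smul_eq_mul]; field_simp; ring

theorem co_of {c s : ℝ} (h : c ^ 2 + s ^ 2 = 1) (hc : 0 ≤ c) : co (s / (1 + c)) = c := by
  have h1 : 1 + c ≠ 0 := by positivity
  have h2 : (1 + c) ^ 2 + s ^ 2 ≠ 0 := by positivity
  unfold co
  have : s ^ 2 = 1 - c ^ 2 := by linarith
  field_simp
  rw [this]
  ring

theorem si_of {c s : ℝ} (h : c ^ 2 + s ^ 2 = 1) (hc : 0 ≤ c) : si (s / (1 + c)) = s := by
  have h1 : 1 + c ≠ 0 := by positivity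
  have h2 : (1 + c) ^ 2 + s ^ 2 ≠ 0 := by positivity
  unfold si
  have : s ^ 2 = 1 - c ^ 2 := by linarith
  field_simp
  rw [this]
  ring

/-! ### the values of the corners -/


theorem rD2 : refD 2 = ⟨⟨0, 0⟩, ⟨18918, 0⟩⟩ := rfl

theorem rD3 : refD 3 = ⟨⟨0, 16383⟩, ⟨0, 9459⟩⟩ := rfl

theorem rD4 : refD 4 = ⟨⟨16383, 0⟩, ⟨0, 9459⟩⟩ := rfl

theorem rT0_5 : refT 0 5 = ⟨⟨0, 10922⟩, ⟨0, 11141⟩⟩ := rfl

theorem rT0_6 : refT 0 6 = ⟨⟨10922, 0⟩, ⟨0, 11141⟩⟩ := rfl

theorem rT0_7 : refT 0 7 = ⟨⟨14052, 0⟩, ⟨10479, 0⟩⟩ := rfl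

theorem rT0_8 : refT 0 8 = ⟨⟨0, 14052⟩, ⟨10479, 0⟩⟩ := rfl

theorem rT1_5 : refT 1 5 = ⟨⟨11141, 0⟩, ⟨0, 10922⟩⟩ := rfl

theorem rT1_6 : refT 1 6 = ⟨⟨11141, 0⟩, ⟨10922, 0⟩⟩ := rfl

theorem rT1_7 : refT 1 7 = ⟨⟨0, 10479⟩, ⟨14052, 0⟩⟩ := rfl

theorem rT1_8 : refT 1 8 = ⟨⟨0, 10479⟩, ⟨0, 14052⟩⟩ := rfl

theorem rT2_5 : refT 2 5 = ⟨⟨10922, 0⟩, ⟨11141, 0⟩⟩ := rfl

theorem rT2_6 : refT 2 6 = ⟨⟨0, 10922⟩, ⟨11141, 0⟩⟩ := rfl

theorem rT2_7 : refT 2 7 = ⟨⟨0, 14052⟩, ⟨0, 10479⟩⟩ := rfl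

theorem rT2_8 : refT 2 8 = ⟨⟨14052, 0⟩, ⟨0, 10479⟩⟩ := rfl

theorem rT3_5 : refT 3 5 = ⟨⟨0, 11141⟩, ⟨10922, 0⟩⟩ := rfl

theorem rT3_6 : refT 3 6 = ⟨⟨0, 11141⟩, ⟨0, 10922⟩⟩ := rfl

theorem rT3_7 : refT 3 7 = ⟨⟨10479, 0⟩, ⟨0, 14052⟩⟩ := rfl

theorem rT3_8 : refT 3 8 = ⟨⟨10479, 0⟩, ⟨14052, 0⟩⟩ := rfl

/-- the corners of the smaller triangle -/
theorem tri_mem {K : Set (ℝ × ℝ)} {c s x y c' s' x' y' : ℝ} (hc : Cf K c s x y c' s' x' y') :
    (x - s * 18918, y + c * 18918) ∈ K ∧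
    (x - c * 16383 + s * 9459, y - s * 16383 - c * 9459) ∈ K ∧
    (x + c * 16383 + s * 9459, y + s * 16383 - c * 9459) ∈ K := by
  have e3 : √3 * √3 = 3 := Real.mul_self_sqrt (by norm_num)
  have g3 : 1.7320508 < √3 := by
    rw [Real.lt_sqrt (by norm_num)]; norm_num
  have l3 : √3 < 1.7320509 := by
    rw [Real.sqrt_lt' (by norm_num)]; norm_num
  have k1 : 0 ≤ (1 - 18918 * √3 / 32768) / 3 := by linarith
  refine ⟨?_, ?_, ?_⟩
  · refine three_mem hc.conv hc.D2 hc.D3 hc.D4 (a := (1 + 2 * (18918 * √3 / 32768)) / 3)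
      (b := (1 - 18918 * √3 / 32768) / 3) (c := (1 - 18918 * √3 / 32768) / 3)
      (by linarith) (by linarith) (by linarith) (by ring) ?_ ?_
    · simp only
      linear_combination (6306 * s) * e3
    · simp only
      linear_combination (-6306 * c) * e3
  · refine three_mem hc.conv hc.D2 hc.D3 hc.D4 (a := (1 - 18918 * √3 / 32768) / 3)
      (b := (1 - (1 - 18918 * √3 / 32768) / 3 + 16383 / 16384) / 2)
      (c := (1 - (1 - 18918 * √3 / 32768) / 3 - 16383 / 16384) / 2)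
      (by linarith) (by linarith) (by linarith) (by ring) ?_ ?_
    · simp only
      linear_combination (-3153 * s) * e3
    · simp only
      linear_combination (3153 * c) * e3
  · refine three_mem hc.conv hc.D2 hc.D3 hc.D4 (a := (1 - 18918 * √3 / 32768) / 3)
      (b := (1 - (1 - 18918 * √3 / 32768) / 3 - 16383 / 16384) / 2)
      (c := (1 - (1 - 18918 * √3 / 32768) / 3 + 16383 / 16384) / 2)
      (by linarith) (by linarith) (by linarith) (by ring) ?_ ?_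
    · simp only
      linear_combination (-3153 * s) * e3
    · simp only
      linear_combination (3153 * c) * e3

/-- the centre of the triangle -/
theorem cen1 {K : Set (ℝ × ℝ)} {c s x y c' s' x' y' : ℝ} (hc : Cf K c s x y c' s' x' y') :
    (x, y) ∈ K := by
  refine three_mem hc.conv hc.D2 hc.D3 hc.D4 (a := 1 / 3) (b := 1 / 3) (c := 1 / 3)
    (by norm_num) (by norm_num) (by norm_num) (by norm_num) ?_ ?_
  · simp only; ring
  · simp only; ring

/-- the centre of the trapezoid -/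
theorem cen2 {K : Set (ℝ × ℝ)} {c s x y c' s' x' y' : ℝ} (hc : Cf K c s x y c' s' x' y') :
    (x', y') ∈ K := by
  have h1 : (x' + s' * 11141, y' - c' * 11141) ∈ K :=
    three_mem hc.conv hc.T5 hc.T5 hc.T6 (a := 1 / 2) (b := 0) (c := 1 / 2) (by norm_num)
      (by norm_num) (by norm_num) (by norm_num) (by simp only; ring) (by simp only; ring)
  have h2 : (x' - s' * 10479, y' + c' * 10479) ∈ K :=
    three_mem hc.conv hc.T7 hc.T7 hc.T8 (a := 1 / 2) (b := 0) (c := 1 / 2) (by norm_num)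
      (by norm_num) (by norm_num) (by norm_num) (by simp only; ring) (by simp only; ring)
  exact three_mem hc.conv h1 h1 h2 (a := 10479 / 21620) (b := 0) (c := 11141 / 21620)
      (by norm_num) (by norm_num) (by norm_num) (by norm_num) (by simp only; ring)
      (by simp only; ring)

theorem in_root {K : Set (ℝ × ℝ)} {c s x y c' s' x' y' : ℝ} (hc : Cf K c s x y c' s' x' y')
    (hf : volume K ≠ ⊤) (h0 : 0 ≤ s) (h1 : √3 * s ≤ c)
    (hv : 2 * (volume K).toReal < 2035814499) {u : ℝ} (hu : 0 ≤ u) (hu' : u ≤ 1) :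
    In ⟨x, y, s / (1 + c), x', y', u⟩ root ∧ Pos ⟨x, y, s / (1 + c), x', y', u⟩ := by
  have e3 : √3 * √3 = 3 := Real.mul_self_sqrt (by norm_num)
  have g3 : 1.7320508 < √3 := by
    rw [Real.lt_sqrt (by norm_num)]; norm_num
  have c0 : 0 ≤ c := le_trans (by positivity) h1
  have a1 := abs_le.1 (y_bound hc.conv hf hc.S0 hc.S1 hv (cen1 hc))
  have a2 := abs_le.1 (y_bound hc.conv hf hc.S0 hc.S1 hv (cen2 hc))
  have a3 := x_bound hc hf h0 h1 hv (cen1 hc) hc.S0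
  have a4 := x_bound hc hf h0 h1 hv hc.S1 (cen1 hc)
  have a5 := x_bound hc hf h0 h1 hv (cen2 hc) hc.S0
  have a6 := x_bound hc hf h0 h1 hv hc.S1 (cen2 hc)
  simp only at a1 a2 a3 a4 a5 a6
  have s1 : s ≤ 1 / 2 := by
    have : (√3 * s) ^ 2 ≤ c ^ 2 := by
      apply pow_le_pow_left₀ (by positivity) h1
    have h4 : s ^ 2 ≤ (1 / 2) ^ 2 := by nlinarith [hc.h1]
    exact le_of_sq_le_sq h4 (by norm_num)
  have c1 : 1.732 / 2 ≤ c := by
    have h4 : (1.732 / 2) ^ 2 ≤ c ^ 2 := by nlinarith [hc.h1]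
    exact le_of_sq_le_sq h4 c0
  have q0 : 0 ≤ s / (1 + c) := by positivity
  have q1 : s / (1 + c) ≤ 4392 / 16384 := by
    rw [div_le_div_iff₀ (by positivity) (by norm_num)]
    linarith
  constructor
  · refine ⟨?_, ?_, ?_, ?_, ?_, ?_⟩ <;> simp only [root, abs_le] <;> push_cast <;>
      constructor <;> linarith
  · refine ⟨?_, ?_, ?_, ?_, ?_, ?_⟩ <;> simp only <;> linarith

theorem le_of_sq {a b : ℝ} (h : a ^ 2 + b ^ 2 = 1) : a ≤ 1 := by nlinarith [sq_nonneg b]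

theorem t_bound {a b : ℝ} (h : a ^ 2 + b ^ 2 = 1) (ha : 0 ≤ a) : b / (1 + a) ≤ 1 := by
  rw [div_le_one (by positivity)]
  have := le_of_sq (a := b) (b := a) (by linarith)
  linarith

/-- the corners in the four charts -/
theorem corners {K : Set (ℝ × ℝ)} {c s x y c' s' x' y' : ℝ} (hc : Cf K c s x y c' s' x' y')
    (c0 : 0 ≤ c) {k : ℕ} {u : ℝ}
    (h5 : x' - c' * 10922 + s' * 11141 = x' + (co u * (refT k 5).x.v - si u * (refT k 5).y.v))
    (h5' : y' - s' * 10922 - c' * 11141 = y' + (si u * (refT k 5).x.v + co u * (refT k 5).y.v))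
    (h6 : x' + c' * 10922 + s' * 11141 = x' + (co u * (refT k 6).x.v - si u * (refT k 6).y.v))
    (h6' : y' + s' * 10922 - c' * 11141 = y' + (si u * (refT k 6).x.v + co u * (refT k 6).y.v))
    (h7 : x' + c' * 14052 - s' * 10479 = x' + (co u * (refT k 7).x.v - si u * (refT k 7).y.v))
    (h7' : y' + s' * 14052 + c' * 10479 = y' + (si u * (refT k 7).x.v + co u * (refT k 7).y.v))
    (h8 : x' - c' * 14052 - s' * 10479 = x' + (co u * (refT k 8).x.v - si u * (refT k 8).y.v))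
    (h8' : y' - s' * 14052 + c' * 10479 = y' + (si u * (refT k 8).x.v + co u * (refT k 8).y.v)) :
    ∀ i ≤ 8, (px k ⟨x, y, s / (1 + c), x', y', u⟩ i, py k ⟨x, y, s / (1 + c), x', y', u⟩ i) ∈ K := by
  intro i hi
  obtain ⟨d2, d3, d4⟩ := tri_mem hc
  have e1 := co_of hc.h1 c0
  have e2 := si_of hc.h1 c0
  interval_cases i
  · simpa [px, py] using hc.S0
  · simpa [px, py] using hc.S1
  · convert d2 using 2 <;> norm_num [px, py, rD2, rD3, rD4, e1, e2] <;> ring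
  · convert d3 using 2 <;> norm_num [px, py, rD2, rD3, rD4, e1, e2] <;> ring
  · convert d4 using 2 <;> norm_num [px, py, rD2, rD3, rD4, e1, e2] <;> ring
  · have := hc.T5
    rw [h5, h5'] at this
    simpa [px, py] using this
  · have := hc.T6
    rw [h6, h6'] at this
    simpa [px, py] using this
  · have := hc.T7
    rw [h7, h7'] at this
    simpa [px, py] using this
  · have := hc.T8
    rw [h8, h8'] at this
    simpa [px, py] using this

/-- the bound in normal position -/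
theorem PP_base (c s : ℝ) (_ : c ^ 2 + s ^ 2 = 1) (h0 : 0 ≤ s) (h1 : √3 * s ≤ c) : PP c s := by
  intro K x y c' s' x' y' hc hf
  by_contra hcon
  push Not at hcon
  have c0 : 0 ≤ c := le_trans (by positivity) h1
  rcases le_total 0 c' with hc' | hc' <;> rcases le_total 0 s' with hs' | hs'
  · -- no rotation
    obtain ⟨r1, r2⟩ := in_root hc hf h0 h1 hcon (u := s' / (1 + c')) (by positivity)
      (t_bound hc.h2 hc')
    have e1 := co_of hc.h2 hc'
    have e2 := si_of hc.h2 hc'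
    refine absurd (ok_root0 _ _ r1 r2 (good_of hc.conv hf (corners hc c0 ?_ ?_ ?_ ?_ ?_ ?_ ?_ ?_)))
      (not_le.2 hcon) <;>
    · rw [e1, e2]
      norm_num [rT0_5, rT0_6, rT0_7, rT0_8]
      ring
  · -- three right angles
    have hh : (-s') ^ 2 + c' ^ 2 = 1 := by linear_combination hc.h2
    obtain ⟨r1, r2⟩ := in_root hc hf h0 h1 hcon (u := c' / (1 + -s'))
      (div_nonneg hc' (by linarith)) (t_bound hh (by linarith))
    have e1 := co_of hh (by linarith)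
    have e2 := si_of hh (by linarith)
    refine absurd (ok_root3 _ _ r1 r2 (good_of hc.conv hf (corners hc c0 ?_ ?_ ?_ ?_ ?_ ?_ ?_ ?_)))
      (not_le.2 hcon) <;>
    · rw [e1, e2]
      norm_num [rT3_5, rT3_6, rT3_7, rT3_8]
      ring
  · -- one right angle
    have hh : s' ^ 2 + (-c') ^ 2 = 1 := by linear_combination hc.h2
    obtain ⟨r1, r2⟩ := in_root hc hf h0 h1 hcon (u := -c' / (1 + s'))
      (div_nonneg (by linarith) (by linarith)) (t_bound hh hs')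
    have e1 := co_of hh hs'
    have e2 := si_of hh hs'
    refine absurd (ok_root1 _ _ r1 r2 (good_of hc.conv hf (corners hc c0 ?_ ?_ ?_ ?_ ?_ ?_ ?_ ?_)))
      (not_le.2 hcon) <;>
    · rw [e1, e2]
      norm_num [rT1_5, rT1_6, rT1_7, rT1_8]
      ring
  · -- two right angles
    have hh : (-c') ^ 2 + (-s') ^ 2 = 1 := by linear_combination hc.h2
    obtain ⟨r1, r2⟩ := in_root hc hf h0 h1 hcon (u := -s' / (1 + -c'))
      (div_nonneg (by linarith) (by linarith)) (t_bound hh (by linarith))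
    have e1 := co_of hh (by linarith)
    have e2 := si_of hh (by linarith)
    refine absurd (ok_root2 _ _ r1 r2 (good_of hc.conv hf (corners hc c0 ?_ ?_ ?_ ?_ ?_ ?_ ?_ ?_)))
      (not_le.2 hcon) <;>
    · rw [e1, e2]
      norm_num [rT2_5, rT2_6, rT2_7, rT2_8]
      ring

/-- the area of a convex set which contains the segment, the triangle and the trapezoid -/
theorem area_bound {K : Set (ℝ × ℝ)} {c s x y c' s' x' y' : ℝ} (hc : Cf K c s x y c' s' x' y')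
    (hf : volume K ≠ ⊤) : 2035814499 ≤ 2 * (volume K).toReal :=
  PP.norm PP_base c s K x y c' s' x' y' hc hf

end Pool.Agent.Worm59
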