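import Pool.Agent.Worm59.Chk

/-!
# Soundness of the check
-/

set_option autoImplicit false

namespace Pool.Agent.Worm59

open Z

theorem beq_false {a b : ℕ} (h : a ≠ b) : Nat.beq a b = false := by
  rw [← Bool.not_eq_true]
  exact fun e => h (Nat.eq_of_beq_eq_true e)

theorem ble_true {a b : ℕ} (h : a ≤ b) : Nat.ble a b = true := by rw [Nat.ble_eq]; exact h

theorem ble_false {a b : ℕ} (h : ¬ a ≤ b) : Nat.ble a b = false := by
  rw [← Bool.not_eq_true, Nat.ble_eq]; exact h

/-! ### the parameters -/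

/-- the parameters of the two motions; `u1` and `u2` are the tangents of the half angles -/
structure St where
  x1 : ℝ
  y1 : ℝ
  u1 : ℝ
  x2 : ℝ
  y2 : ℝ
  u2 : ℝ

/-- the cosine -/
noncomputable def co (u : ℝ) : ℝ := (1 - u ^ 2) / (1 + u ^ 2)

/-- the sine -/
noncomputable def si (u : ℝ) : ℝ := 2 * u / (1 + u ^ 2)

theorem co_si (u : ℝ) : co u ^ 2 + si u ^ 2 = 1 := by
  have h : (1 + u ^ 2 : ℝ) ≠ 0 := by positivity
  unfold co si
  field_simp
  ring

/-- first coordinate of a corner -/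
noncomputable def px (k : ℕ) (t : St) (i : ℕ) : ℝ :=
  if i = 0 then 0 else if i = 1 then 65536
  else if i ≤ 4 then t.x1 + (co t.u1 * (refD i).x.v - si t.u1 * (refD i).y.v)
  else t.x2 + (co t.u2 * (refT k i).x.v - si t.u2 * (refT k i).y.v)

/-- second coordinate of a corner -/
noncomputable def py (k : ℕ) (t : St) (i : ℕ) : ℝ :=
  if i = 0 then 0 else if i = 1 then 0
  else if i ≤ 4 then t.y1 + (si t.u1 * (refD i).x.v + co t.u1 * (refD i).y.v)
  else t.y2 + (si t.u2 * (refT k i).x.v + co t.u2 * (refT k i).y.v)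

/-- the determinant of two corners -/
noncomputable def dd (k : ℕ) (t : St) (i j : ℕ) : ℝ := px k t i * py k t j - py k t i * px k t j

/-- the value of a sum of determinants -/
noncomputable def Ag.val (A : Ag) (t : St) : ℝ :=
  A.K.v
  + (t.x1 * (si t.u1 * A.e1.x.v + co t.u1 * A.e1.y.v)
      - t.y1 * (co t.u1 * A.e1.x.v - si t.u1 * A.e1.y.v))
  + (t.x2 * (si t.u2 * A.e2.x.v + co t.u2 * A.e2.y.v)
      - t.y2 * (co t.u2 * A.e2.x.v - si t.u2 * A.e2.y.v))
  + A.n12.v * (t.x1 * t.y2 - t.y1 * t.x2)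
  + (t.x1 * (si t.u2 * A.b2.x.v + co t.u2 * A.b2.y.v)
      - t.y1 * (co t.u2 * A.b2.x.v - si t.u2 * A.b2.y.v))
  + ((co t.u1 * A.a1.x.v - si t.u1 * A.a1.y.v) * t.y2
      - (si t.u1 * A.a1.x.v + co t.u1 * A.a1.y.v) * t.x2)
  + (co t.u1 * co t.u2 + si t.u1 * si t.u2) * A.ga.v
  + (co t.u1 * si t.u2 - si t.u1 * co t.u2) * A.de.v
  + 65536 * (A.n1.v * t.y1 + (si t.u1 * A.f1.x.v + co t.u1 * A.f1.y.v)
      + A.n2.v * t.y2 + (si t.u2 * A.f2.x.v + co t.u2 * A.f2.y.v))

theorem val_ag0 (t : St) : ag0.val t = 0 := by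
  simp [Ag.val, ag0, z0, v0, Z.v]

theorem val_addP (k : ℕ) (w : Z) {i j : ℕ} (h : i < j) (A : Ag) (t : St) :
    (addP k w i j A).val t = A.val t + w.v * dd k t i j := by
  have c1 := co_si t.u1
  have c2 := co_si t.u2
  unfold addP
  rcases Nat.eq_zero_or_pos i with h0 | h0
  · subst h0
    have e : Nat.beq 0 0 = true := rfl
    rw [e, cond_true]
    simp [dd, px, py]
  have e0 : Nat.beq i 0 = false := beq_false (by omega)
  rw [e0, cond_false]
  have hj0 : j ≠ 0 := by omega
  have hj1 : j ≠ 1 := by omega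
  by_cases h1 : i = 1
  · subst h1
    have e1 : Nat.beq 1 1 = true := rfl
    rw [e1, cond_true]
    by_cases h4 : j ≤ 4
    · have e4 : Nat.ble j 4 = true := ble_true h4
      rw [e4, cond_true]
      simp only [Ag.val, dd, px, py, if_neg hj0, if_neg hj1, if_pos h4, vadd, v_add, v_mul,
        if_true, one_ne_zero, if_false]
      ring
    · have e4 : Nat.ble j 4 = false := ble_false h4
      rw [e4, cond_false]
      simp only [Ag.val, dd, px, py, if_neg hj0, if_neg hj1, if_neg h4, vadd, v_add, v_mul,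
        if_true, one_ne_zero, if_false]
      ring
  · have e1 : Nat.beq i 1 = false := beq_false h1
    rw [e1, cond_false]
    have hi0 : i ≠ 0 := by omega
    by_cases h4 : i ≤ 4
    · have e4 : Nat.ble i 4 = true := ble_true h4
      rw [e4, cond_true]
      by_cases h5 : j ≤ 4
      · have e5 : Nat.ble j 4 = true := ble_true h5
        rw [e5, cond_true]
        simp only [Ag.val, dd, px, py, if_neg hj0, if_neg hj1, if_pos h5, if_neg hi0, if_neg h1,
          if_pos h4, vadd, vsub, v_add, v_mul, v_sub, dt]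
        linear_combination (-(w.v * ((refD i).x.v * (refD j).y.v - (refD i).y.v * (refD j).x.v)))
          * c1
      · have e5 : Nat.ble j 4 = false := ble_false h5
        rw [e5, cond_false]
        simp only [Ag.val, dd, px, py, if_neg hj0, if_neg hj1, if_neg h5, if_neg hi0, if_neg h1,
          if_pos h4, vadd, v_add, v_mul, v_sub, dt, dot]
        ring
    · have e4 : Nat.ble i 4 = false := ble_false h4
      have h5 : ¬ j ≤ 4 := by omega
      rw [e4, cond_false]
      simp only [Ag.val, dd, px, py, if_neg hj0, if_neg hj1, if_neg h5, if_neg hi0, if_neg h1,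
        if_neg h4, vadd, vsub, v_add, v_mul, v_sub, dt]
      linear_combination (-(w.v * ((refT k i).x.v * (refT k j).y.v
        - (refT k i).y.v * (refT k j).x.v))) * c2

theorem val_addE (k w i j : ℕ) (A : Ag) (t : St) :
    (addE k w i j A).val t = A.val t + w * dd k t i j := by
  unfold addE
  by_cases h : i = j
  · subst h
    have e : Nat.beq i i = true := Nat.beq_refl i
    rw [e, cond_true, dd]
    ring
  · have e : Nat.beq i j = false := beq_false h
    rw [e, cond_false]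
    by_cases h1 : i ≤ j
    · have e1 : Nat.ble i j = true := ble_true h1
      rw [e1, cond_true, val_addP k _ (lt_of_le_of_ne h1 h), v_mk]
      simp
    · have e1 : Nat.ble i j = false := ble_false h1
      rw [e1, cond_false, val_addP k _ (not_le.1 h1), v_mk]
      simp only [dd, Nat.cast_zero]
      ring

/-! ### columns -/

/-- the upper part -/
noncomputable def U2 (k : ℕ) (t : St) (p b q : ℕ) : ℝ :=
  dd k t 1 p + dd k t p b + dd k t b q + dd k t q 0

/-- the lower part -/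
noncomputable def L2 (k : ℕ) (t : St) (p b q : ℕ) : ℝ :=
  dd k t 0 p + dd k t p b + dd k t b q + dd k t q 1

/-- four corners -/
noncomputable def Q2 (k : ℕ) (t : St) (P a Q b : ℕ) : ℝ :=
  dd k t P a + dd k t a Q + dd k t Q b + dd k t b P

/-- `μ` is a bound for twice the areas of the polygons used -/
structure Good (k : ℕ) (t : St) (μ : ℝ) : Prop where
  quad : ∀ P a Q b, P ≤ 8 → a ≤ 8 → Q ≤ 8 → b ≤ 8 → Q2 k t P a Q b ≤ μ
  none : 0 ≤ μ
  up : ∀ p b q, p ≤ 8 → b ≤ 8 → q ≤ 8 → 0 ≤ py k t p → 0 ≤ py k t b → 0 ≤ py k t q →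
    U2 k t p b q ≤ μ
  lo : ∀ p b q, p ≤ 8 → b ≤ 8 → q ≤ 8 → py k t p ≤ 0 → py k t b ≤ 0 → py k t q ≤ 0 →
    L2 k t p b q ≤ μ
  both : ∀ p b q p' b' q', p ≤ 8 → b ≤ 8 → q ≤ 8 → 0 ≤ py k t p → 0 ≤ py k t b → 0 ≤ py k t q →
    p' ≤ 8 → b' ≤ 8 → q' ≤ 8 → py k t p' ≤ 0 → py k t b' ≤ 0 → py k t q' ≤ 0 →
    U2 k t p b q + L2 k t p' b' q' ≤ μ

/-- the masks are correct -/
def MOK (k : ℕ) (t : St) (mu ml : ℕ) : Prop :=
  (∀ i, bit mu i = true → i ≤ 8 ∧ 0 ≤ py k t i) ∧ ∀ i, bit ml i = true → i ≤ 8 ∧ py k t i ≤ 0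

theorem quad_le {k w P a Q b : ℕ} {A : Ag} {t : St} {μ : ℝ} (hg : Good k t μ) :
    (quad k w P a Q b A).val t ≤ A.val t + w * μ := by
  have hw : (0 : ℝ) ≤ w := Nat.cast_nonneg w
  unfold quad
  cases h : ((Nat.ble P 8).and ((Nat.ble a 8).and ((Nat.ble Q 8).and (Nat.ble b 8))))
  · rw [cond_false]
    have := mul_nonneg hw hg.none
    linarith
  · rw [cond_true, val_addE, val_addE, val_addE, val_addE]
    simp only [Bool.and_eq_true, Bool.and_eq_true, Nat.ble_eq] at h
    obtain ⟨h1, h2, h3, h4⟩ := h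
    have := mul_le_mul_of_nonneg_left (hg.quad P a Q b h1 h2 h3 h4) hw
    unfold Q2 at this
    linarith

theorem updown_le {k mu ml w p b q p' b' q' : ℕ} {A : Ag} {t : St} {μ : ℝ} (hg : Good k t μ)
    (hm : MOK k t mu ml) :
    (upper k mu w p b q (lower k ml w p' b' q' A)).val t ≤ A.val t + w * μ := by
  have hw : (0 : ℝ) ≤ w := Nat.cast_nonneg w
  unfold upper lower
  cases h : ((bit mu p).and ((bit mu b).and (bit mu q))) <;>
    cases h' : ((bit ml p').and ((bit ml b').and (bit ml q')))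
  · rw [cond_false, cond_false]
    have := mul_nonneg hw hg.none
    linarith
  · rw [cond_false, cond_true, val_addE, val_addE, val_addE, val_addE]
    simp only [Bool.and_eq_true] at h'
    obtain ⟨h1, h2, h3⟩ := h'
    have := mul_le_mul_of_nonneg_left (hg.lo p' b' q' (hm.2 _ h1).1 (hm.2 _ h2).1 (hm.2 _ h3).1
      (hm.2 _ h1).2 (hm.2 _ h2).2 (hm.2 _ h3).2) hw
    unfold L2 at this
    linarith
  · rw [cond_false, cond_true, val_addE, val_addE, val_addE, val_addE]
    simp only [Bool.and_eq_true] at h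
    obtain ⟨h1, h2, h3⟩ := h
    have := mul_le_mul_of_nonneg_left (hg.up p b q (hm.1 _ h1).1 (hm.1 _ h2).1 (hm.1 _ h3).1
      (hm.1 _ h1).2 (hm.1 _ h2).2 (hm.1 _ h3).2) hw
    unfold U2 at this
    linarith
  · rw [cond_true, cond_true, val_addE, val_addE, val_addE, val_addE, val_addE, val_addE,
      val_addE, val_addE]
    simp only [Bool.and_eq_true] at h h'
    obtain ⟨h1, h2, h3⟩ := h
    obtain ⟨h4, h5, h6⟩ := h'
    have := mul_le_mul_of_nonneg_left (hg.both p b q p' b' q' (hm.1 _ h1).1 (hm.1 _ h2).1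
      (hm.1 _ h3).1 (hm.1 _ h1).2 (hm.1 _ h2).2 (hm.1 _ h3).2 (hm.2 _ h4).1 (hm.2 _ h5).1
      (hm.2 _ h6).1 (hm.2 _ h4).2 (hm.2 _ h5).2 (hm.2 _ h6).2) hw
    unfold U2 L2 at this
    linarith

end Pool.Agent.Worm59
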