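import Pool.Agent.Worm59.Snd

/-!
# Soundness of the bounds on a box
-/

set_option autoImplicit false

namespace Pool.Agent.Worm59

open Z

/-! ### rotations near the centre of an interval -/

/-- sine of the difference of the angles -/
noncomputable def Sv (n : ℕ) (u : ℝ) : ℝ := (pc n * si u - qc n * co u) / nn n

/-- cosine of the difference of the angles -/
noncomputable def Cv (n : ℕ) (u : ℝ) : ℝ := (pc n * co u + qc n * si u) / nn n

theorem nn_pos (n : ℕ) : (0 : ℝ) < nn n := by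
  simp only [nn, Nat.add_eq, Nat.mul_eq, Nat.cast_add, Nat.cast_mul]
  positivity

theorem cast_nn (n : ℕ) : (nn n : ℝ) = 268435456 + (n : ℝ) ^ 2 := by
  simp only [nn, Nat.add_eq, Nat.mul_eq, Nat.cast_add, Nat.cast_mul]
  push_cast; ring

theorem cast_pc {n : ℕ} (h : n ≤ 16384) : (pc n : ℝ) = 268435456 - (n : ℝ) ^ 2 := by
  have h1 : n * n ≤ 268435456 := by nlinarith
  simp only [pc, Nat.sub_eq, Nat.mul_eq]
  rw [Nat.cast_sub h1]
  push_cast; ring

theorem cast_qc (n : ℕ) : (qc n : ℝ) = 32768 * (n : ℝ) := by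
  simp only [qc, Nat.mul_eq]
  push_cast; ring

theorem pq_nn {n : ℕ} (h : n ≤ 16384) : (pc n : ℝ) ^ 2 + (qc n : ℝ) ^ 2 = (nn n : ℝ) ^ 2 := by
  rw [cast_pc h, cast_qc, cast_nn]; ring

theorem co_eq {n : ℕ} (h : n ≤ 16384) (u : ℝ) :
    (nn n : ℝ) * co u = pc n * Cv n u - qc n * Sv n u := by
  have h1 := nn_pos n
  have h2 := pq_nn h
  unfold Cv Sv
  field_simp
  linear_combination (-(co u)) * h2

theorem si_eq {n : ℕ} (h : n ≤ 16384) (u : ℝ) :
    (nn n : ℝ) * si u = qc n * Cv n u + pc n * Sv n u := by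
  have h1 := nn_pos n
  have h2 := pq_nn h
  unfold Cv Sv
  field_simp
  linear_combination (-(si u)) * h2

/-- the number `b` with `(1 + u u₀) (2 ^ 28) ≥ b` -/
theorem sg_bound {n h : ℕ} {u : ℝ} (hu0 : 0 ≤ u) (hu : |16384 * u - n| ≤ h) :
    0 < (1 + u * (n / 16384 : ℝ)) ∧
      2 * |u - n / 16384| * 16384 ≤ (sg n h : ℝ) * (1 + u * (n / 16384 : ℝ)) := by
  have hn : (0 : ℝ) ≤ n := Nat.cast_nonneg n
  have hh : (0 : ℝ) ≤ h := Nat.cast_nonneg h
  have h1 : 0 < (1 + u * (n / 16384 : ℝ)) := by positivity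
  refine ⟨h1, ?_⟩
  -- the denominator
  have h2 : ((268435456 + n * (n - h) : ℕ) : ℝ) ≤ 268435456 * (1 + u * (n / 16384 : ℝ)) := by
    have h3 : ((n - h : ℕ) : ℝ) ≤ 16384 * u := by
      rcases le_total n h with h4 | h4
      · rw [Nat.sub_eq_zero_of_le h4]
        simp only [Nat.cast_zero]
        positivity
      · rw [Nat.cast_sub h4]
        have := (abs_le.1 hu).1
        linarith
    push_cast
    have h4 := mul_le_mul_of_nonneg_left h3 hn
    nlinarith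
  have h5 : (536870912 * h : ℝ) ≤ (sg n h : ℝ) * ((268435456 + n * (n - h) : ℕ) : ℝ) := by
    have h6 : 536870912 * h < (sg n h) * (268435456 + n * (n - h)) := by
      have h70 : sg n h = 536870912 * h / (268435456 + n * (n - h)) + 1 := rfl
      rw [h70]
      have h7 : 0 < 268435456 + n * (n - h) := by positivity
      exact (Nat.div_lt_iff_lt_mul h7).1 (Nat.lt_succ_self _)
    exact_mod_cast h6.le
  have h6 : |u - n / 16384| * 16384 ≤ h := by
    have h7 : |16384 * u - n| = |u - n / 16384| * 16384 := by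
      rw [show (16384 * u - n : ℝ) = (u - n / 16384) * 16384 by ring, abs_mul]
      norm_num
    rw [← h7]; exact hu
  have h8 : (0 : ℝ) ≤ sg n h := Nat.cast_nonneg _
  have h9 := mul_le_mul_of_nonneg_left h2 h8
  nlinarith

theorem den_eq (u w : ℝ) : (1 + u ^ 2) * (1 + w ^ 2) = (1 + u * w) ^ 2 + (u - w) ^ 2 := by ring

theorem Sv_eq {n : ℕ} (hn : n ≤ 16384) (u : ℝ) :
    Sv n u = 2 * (u - n / 16384) * (1 + u * (n / 16384))
      / ((1 + u * (n / 16384)) ^ 2 + (u - n / 16384) ^ 2) := by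
  rw [← den_eq]
  have h1 : (1 + u ^ 2 : ℝ) ≠ 0 := by positivity
  have h2 : (1 + ((n : ℝ) / 16384) ^ 2 : ℝ) ≠ 0 := by positivity
  have h3 : (268435456 + (n : ℝ) ^ 2 : ℝ) ≠ 0 := by positivity
  unfold Sv co si
  rw [cast_pc hn, cast_qc, cast_nn]
  field_simp
  ring

theorem Cv_eq {n : ℕ} (hn : n ≤ 16384) (u : ℝ) :
    1 - Cv n u = 2 * (u - n / 16384) ^ 2
      / ((1 + u * (n / 16384)) ^ 2 + (u - n / 16384) ^ 2) := by
  rw [← den_eq]
  have h1 : (1 + u ^ 2 : ℝ) ≠ 0 := by positivity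
  have h2 : (1 + ((n : ℝ) / 16384) ^ 2 : ℝ) ≠ 0 := by positivity
  have h3 : (268435456 + (n : ℝ) ^ 2 : ℝ) ≠ 0 := by positivity
  unfold Cv co si
  rw [cast_pc hn, cast_qc, cast_nn]
  field_simp
  ring

theorem Sv_le {n h : ℕ} (hn : n ≤ 16384) {u : ℝ} (hu0 : 0 ≤ u) (hu : |16384 * u - n| ≤ h) :
    16384 * |Sv n u| ≤ sg n h := by
  obtain ⟨h1, h2⟩ := sg_bound hu0 hu
  rw [Sv_eq hn, abs_div, abs_mul, abs_mul, abs_of_pos h1]
  have h3 : 0 < (1 + u * (n / 16384 : ℝ)) ^ 2 + (u - n / 16384) ^ 2 := by positivity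
  rw [abs_of_pos h3, ← mul_div_assoc, div_le_iff₀ h3, abs_of_pos (by norm_num : (0 : ℝ) < 2)]
  have h4 : (0 : ℝ) ≤ sg n h := Nat.cast_nonneg _
  have h5 := mul_le_mul_of_nonneg_right h2 h1.le
  have h6 : 0 ≤ (sg n h : ℝ) * (u - n / 16384) ^ 2 := by positivity
  nlinarith

theorem Cv_le_one {n : ℕ} (hn : n ≤ 16384) (u : ℝ) : Cv n u ≤ 1 := by
  have h := Cv_eq hn u
  have h3 : 0 ≤ 2 * (u - n / 16384) ^ 2
      / ((1 + u * (n / 16384)) ^ 2 + (u - n / 16384) ^ 2) := by positivity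
  linarith

theorem le_Cv {n h : ℕ} (hn : n ≤ 16384) {u : ℝ} (hu0 : 0 ≤ u) (hu : |16384 * u - n| ≤ h) :
    16384 * (1 - Cv n u) ≤ ee (sg n h) := by
  obtain ⟨h1, h2⟩ := sg_bound hu0 hu
  have h3 : 0 < (1 + u * (n / 16384 : ℝ)) ^ 2 + (u - n / 16384) ^ 2 := by positivity
  have h4 : (0 : ℝ) ≤ sg n h := Nat.cast_nonneg _
  have h5 : ((sg n h : ℝ) * sg n h) / 32768 ≤ ee (sg n h) := by
    rw [div_le_iff₀ (by norm_num)]
    have h6 : sg n h * sg n h < ee (sg n h) * 32768 := by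
      have h70 : ee (sg n h) = sg n h * sg n h / 32768 + 1 := rfl
      rw [h70]
      exact (Nat.div_lt_iff_lt_mul (by norm_num)).1 (Nat.lt_succ_self _)
    exact_mod_cast h6.le
  refine le_trans ?_ h5
  rw [Cv_eq hn, ← mul_div_assoc, div_le_iff₀ h3]
  have h7 : (2 * |u - n / 16384| * 16384) * (2 * |u - n / 16384| * 16384) ≤
      ((sg n h : ℝ) * (1 + u * (n / 16384 : ℝ))) * ((sg n h : ℝ) * (1 + u * (n / 16384 : ℝ))) :=
    mul_le_mul h2 h2 (by positivity) (by positivity)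
  have h8 : |u - n / 16384| * |u - n / 16384| = (u - n / 16384) ^ 2 := by
    rw [← abs_mul, ← sq, abs_of_nonneg (sq_nonneg _)]
  have h9 : 0 ≤ (sg n h : ℝ) * sg n h * (u - n / 16384) ^ 2 := by positivity
  nlinarith

/-! ### boxes -/

/-- the parameters are in the box -/
structure In (t : St) (b : Bx) : Prop where
  x1 : |t.x1 + 65536 - b.x1| ≤ b.hx1
  y1 : |t.y1 + 65536 - b.y1| ≤ b.hy1
  u1 : |16384 * t.u1 - b.u1| ≤ b.hu1
  x2 : |t.x2 + 65536 - b.x2| ≤ b.hx2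
  y2 : |t.y2 + 65536 - b.y2| ≤ b.hy2
  u2 : |16384 * t.u2 - b.u2| ≤ b.hu2

/-- general bounds for the parameters -/
structure Pos (t : St) : Prop where
  x1 : 0 ≤ t.x1 + 65536
  y1 : 0 ≤ t.y1 + 65536
  u1 : 0 ≤ t.u1
  x2 : 0 ≤ t.x2 + 65536
  y2 : 0 ≤ t.y2 + 65536
  u2 : 0 ≤ t.u2

/-! ### masks -/

theorem rot_x (p q : ℕ) (a : V) : (rot p q a).x.v = p * a.x.v - q * a.y.v := by
  simp [rot]

theorem rot_y (p q : ℕ) (a : V) : (rot p q a).y.v = q * a.x.v + p * a.y.v := by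
  simp [rot]

theorem upOK_sound {n h y hy : ℕ} (hn : n ≤ 16384) {u Y : ℝ} (hu0 : 0 ≤ u)
    (hu : |16384 * u - n| ≤ h) (hY : |Y + 65536 - y| ≤ hy) (r : V)
    (hc : upOK (nn n) y hy (sg n h) (ee (sg n h)) (rot (pc n) (qc n) r) = true) :
    0 ≤ Y + (si u * r.x.v + co u * r.y.v) := by
  have h1 := nn_pos n
  have h2 := Sv_le hn hu0 hu
  have h3 := Cv_le_one hn u
  have h4 := le_Cv hn hu0 hu
  have h5 := co_eq hn u
  have h6 := si_eq hn u
  unfold upOK at hc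
  rw [Nat.ble_eq] at hc
  obtain ⟨G, hG⟩ : ∃ G, G = rot (pc n) (qc n) r := ⟨_, rfl⟩
  have hx : G.x.v = pc n * r.x.v - qc n * r.y.v := by rw [hG, rot_x]
  have hy' : G.y.v = qc n * r.x.v + pc n * r.y.v := by rw [hG, rot_y]
  rw [← hG] at hc
  have h7 : (16384 * ((G.y.n : ℝ) + nn n * (65536 + hy)) + (|G.x.v| * sg n h
      + (G.y.pp : ℝ) * ee (sg n h))) ≤ 16384 * ((G.y.p : ℝ) + nn n * y) := by
    rw [← ab_eq]
    exact_mod_cast hc
  have h8 : G.y.v = (G.y.p : ℝ) - G.y.n := rfl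
  have h9 := le_pp G.y
  have h10 := pp_nonneg G.y
  -- the value
  have h11 : (nn n : ℝ) * (si u * r.x.v + co u * r.y.v) = G.y.v * Cv n u + G.x.v * Sv n u := by
    have : (nn n : ℝ) * (si u * r.x.v + co u * r.y.v)
        = (nn n * si u) * r.x.v + (nn n * co u) * r.y.v := by ring
    rw [this, h5, h6, hx, hy']; ring
  have h12 : -(|G.x.v| * |Sv n u|) ≤ G.x.v * Sv n u := by
    rw [← abs_mul]; exact neg_abs_le _
  have h13 : |G.x.v| * (16384 * |Sv n u|) ≤ |G.x.v| * sg n h :=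
    mul_le_mul_of_nonneg_left h2 (abs_nonneg _)
  have h14 : G.y.v * (16384 * (1 - Cv n u)) ≤ (G.y.pp : ℝ) * ee (sg n h) := by
    refine (mul_le_mul_of_nonneg_right h9 (by linarith)).trans ?_
    exact mul_le_mul_of_nonneg_left h4 h10
  have h15 := (abs_le.1 hY).1
  have h16 : (nn n : ℝ) * (y - hy - 65536) ≤ nn n * Y :=
    mul_le_mul_of_nonneg_left (by linarith) h1.le
  have h17 : 0 ≤ (nn n : ℝ) * (Y + (si u * r.x.v + co u * r.y.v)) := by
    rw [mul_add, h11]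
    nlinarith
  exact nonneg_of_mul_nonneg_right h17 h1

theorem loOK_sound {n h y hy : ℕ} (hn : n ≤ 16384) {u Y : ℝ} (hu0 : 0 ≤ u)
    (hu : |16384 * u - n| ≤ h) (hY : |Y + 65536 - y| ≤ hy) (r : V)
    (hc : loOK (nn n) y hy (sg n h) (ee (sg n h)) (rot (pc n) (qc n) r) = true) :
    Y + (si u * r.x.v + co u * r.y.v) ≤ 0 := by
  have h1 := nn_pos n
  have h2 := Sv_le hn hu0 hu
  have h3 := Cv_le_one hn u
  have h4 := le_Cv hn hu0 hu
  have h5 := co_eq hn u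
  have h6 := si_eq hn u
  unfold loOK at hc
  rw [Nat.ble_eq] at hc
  obtain ⟨G, hG⟩ : ∃ G, G = rot (pc n) (qc n) r := ⟨_, rfl⟩
  have hx : G.x.v = pc n * r.x.v - qc n * r.y.v := by rw [hG, rot_x]
  have hy' : G.y.v = qc n * r.x.v + pc n * r.y.v := by rw [hG, rot_y]
  rw [← hG] at hc
  have h7 : (16384 * ((G.y.p : ℝ) + nn n * (y + hy)) + (|G.x.v| * sg n h
      + ((G.y.n - G.y.p : ℕ) : ℝ) * ee (sg n h))) ≤ 16384 * ((G.y.n : ℝ) + nn n * 65536) := by
    rw [← ab_eq]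
    exact_mod_cast hc
  have h8 : G.y.v = (G.y.p : ℝ) - G.y.n := rfl
  have h9 : -G.y.v ≤ ((G.y.n - G.y.p : ℕ) : ℝ) := by
    have := le_pp ⟨G.y.n, G.y.p⟩
    simp only [v_mk, pp, Nat.sub_eq] at this
    rw [h8]; linarith
  have h10 : (0 : ℝ) ≤ ((G.y.n - G.y.p : ℕ) : ℝ) := Nat.cast_nonneg _
  have h11 : (nn n : ℝ) * (si u * r.x.v + co u * r.y.v) = G.y.v * Cv n u + G.x.v * Sv n u := by
    have : (nn n : ℝ) * (si u * r.x.v + co u * r.y.v)
        = (nn n * si u) * r.x.v + (nn n * co u) * r.y.v := by ring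
    rw [this, h5, h6, hx, hy']; ring
  have h12 : G.x.v * Sv n u ≤ |G.x.v| * |Sv n u| := by
    rw [← abs_mul]; exact le_abs_self _
  have h13 : |G.x.v| * (16384 * |Sv n u|) ≤ |G.x.v| * sg n h :=
    mul_le_mul_of_nonneg_left h2 (abs_nonneg _)
  have h14 : (-G.y.v) * (16384 * (1 - Cv n u)) ≤ ((G.y.n - G.y.p : ℕ) : ℝ) * ee (sg n h) := by
    refine (mul_le_mul_of_nonneg_right h9 (by linarith)).trans ?_
    exact mul_le_mul_of_nonneg_left h4 h10
  have h15 := (abs_le.1 hY).2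
  have h16 : (nn n : ℝ) * Y ≤ nn n * (y + hy - 65536) :=
    mul_le_mul_of_nonneg_left (by linarith) h1.le
  have h17 : (nn n : ℝ) * (Y + (si u * r.x.v + co u * r.y.v)) ≤ 0 := by
    rw [mul_add, h11]
    nlinarith
  by_contra hcon
  exact absurd (mul_pos h1 (not_le.1 hcon)) (not_lt.2 h17)

end Pool.Agent.Worm59
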