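import Pool.Agent.Worm59.Snd2

/-!
# Soundness of the check of a leaf
-/

set_option autoImplicit false

namespace Pool.Agent.Worm59

open Z

theorem neg_le_mul {a d D : ℝ} (h : |d| ≤ D) : -(|a| * D) ≤ a * d := by
  have h1 : |a * d| ≤ |a| * D := by
    rw [abs_mul]; exact mul_le_mul_of_nonneg_left h (abs_nonneg _)
  exact (neg_le_neg h1).trans (neg_abs_le _)

theorem abs_two {a b c d A B C D : ℝ} (h1 : |a| ≤ A) (h2 : |b| ≤ B) (h3 : |c| ≤ C)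
    (h4 : |d| ≤ D) : |a * b + c * d| ≤ A * B + C * D := by
  refine (abs_add_le _ _).trans (add_le_add ?_ ?_)
  · rw [abs_mul]; exact mul_le_mul h1 h2 (abs_nonneg _) ((abs_nonneg _).trans h1)
  · rw [abs_mul]; exact mul_le_mul h3 h4 (abs_nonneg _) ((abs_nonneg _).trans h3)

theorem abs_two' {a b c d A B C D : ℝ} (h1 : |a| ≤ A) (h2 : |b| ≤ B) (h3 : |c| ≤ C)
    (h4 : |d| ≤ D) : |a * b - c * d| ≤ A * B + C * D := by
  have := abs_two h1 h2 (a := a) (b := b) (c := c) (d := -d) (C := C) (D := D) h3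
    (by rw [abs_neg]; exact h4)
  rwa [mul_neg, ← sub_eq_add_neg] at this

set_option maxHeartbeats 4000000 in
theorem fin_sound {A : Ag} {MW N1 N2 : ℕ} {T1 T2 E1 E2 A1 B2 F1 F2 : V} {Ga De : Z}
    {dx1 dy1 s1 e1 dx2 dy2 s2 e2 : ℕ}
    (h : fin A MW N1 N2 T1 T2 E1 E2 A1 B2 F1 F2 Ga De dx1 dy1 s1 e1 dx2 dy2 s2 e2 = true)
    (hMW : 0 < MW) (hN1 : 0 < N1) (hN2 : 0 < N2) {x1 y1 x2 y2 g1 k1 g2 k2 : ℝ}
    (hx1 : |x1 - T1.x.v| ≤ dx1) (hy1 : |y1 - T1.y.v| ≤ dy1)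
    (hx2 : |x2 - T2.x.v| ≤ dx2) (hy2 : |y2 - T2.y.v| ≤ dy2)
    (hg1 : |g1| ≤ s1) (hk1 : 0 ≤ k1) (hk1' : k1 ≤ e1)
    (hg2 : |g2| ≤ s2) (hk2 : 0 ≤ k2) (hk2' : k2 ≤ e2) :
    268435456 * ((N1 : ℝ) * N2 * MW) ≤
      268435456 * ((N1 : ℝ) * N2 * (A.K.v + A.n12.v * (x1 * y2 - y1 * x2)))
      + 16384 * N2 * (x1 * ((16384 - k1) * E1.y.v + g1 * E1.x.v)
          - y1 * ((16384 - k1) * E1.x.v - g1 * E1.y.v))
      + 16384 * N1 * (x2 * ((16384 - k2) * E2.y.v + g2 * E2.x.v)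
          - y2 * ((16384 - k2) * E2.x.v - g2 * E2.y.v))
      + 16384 * N1 * (x1 * ((16384 - k2) * B2.y.v + g2 * B2.x.v)
          - y1 * ((16384 - k2) * B2.x.v - g2 * B2.y.v))
      + 16384 * N2 * (((16384 - k1) * A1.x.v - g1 * A1.y.v) * y2
          - ((16384 - k1) * A1.y.v + g1 * A1.x.v) * x2)
      + ((16384 - k1) * (16384 - k2) + g1 * g2) * Ga.v
      + ((16384 - k1) * g2 - g1 * (16384 - k2)) * De.v
      + 65536 * (268435456 * ((N1 : ℝ) * N2 * (A.n1.v * y1 + A.n2.v * y2))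
        + 16384 * N2 * ((16384 - k1) * F1.y.v + g1 * F1.x.v)
        + 16384 * N1 * ((16384 - k2) * F2.y.v + g2 * F2.x.v)) := by
  unfold fin at h
  rw [Nat.ble_eq] at h
  have hr := (Nat.cast_le (α := ℝ)).2 h
  simp only [Nat.add_eq, Nat.mul_eq, Nat.cast_add, Nat.cast_mul, ab_eq, v_add, v_sub, v_mul,
    v_smul, Nat.cast_ofNat, dt, dot] at hr
  clear h
  have hk1a : |k1| ≤ e1 := by rw [abs_of_nonneg hk1]; exact hk1'
  have hk2a : |k2| ≤ e2 := by rw [abs_of_nonneg hk2]; exact hk2'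
  have hN1' : (0 : ℝ) < N1 := by exact_mod_cast hN1
  have hN2' : (0 : ℝ) < N2 := by exact_mod_cast hN2
  have hMW' : (0 : ℝ) < MW := by exact_mod_cast hMW
  obtain ⟨p, hp⟩ : ∃ p, p = x1 - T1.x.v := ⟨_, rfl⟩
  obtain ⟨q, hq⟩ : ∃ q, q = y1 - T1.y.v := ⟨_, rfl⟩
  obtain ⟨r, hr'⟩ : ∃ r, r = x2 - T2.x.v := ⟨_, rfl⟩
  obtain ⟨s, hs⟩ : ∃ s, s = y2 - T2.y.v := ⟨_, rfl⟩
  rw [← hp] at hx1
  rw [← hq] at hy1
  rw [← hr'] at hx2
  rw [← hs] at hy2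
  have ex1 : x1 = T1.x.v + p := by rw [hp]; ring
  have ey1 : y1 = T1.y.v + q := by rw [hq]; ring
  have ex2 : x2 = T2.x.v + r := by rw [hr']; ring
  have ey2 : y2 = T2.y.v + s := by rw [hs]; ring
  clear hp hq hr' hs
  subst ex1 ey1 ex2 ey2
  -- the linear terms
  have b1 := neg_le_mul (a := (N2 : ℝ) * E1.y.v + N1 * B2.y.v + N1 * N2 * (A.n12.v * T2.y.v)) hx1
  have b2 := neg_le_mul (a := 65536 * ((N1 : ℝ) * N2) * A.n1.v - (N2 * E1.x.v + N1 * B2.x.v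
    + N1 * N2 * (A.n12.v * T2.x.v))) hy1
  have b3 := neg_le_mul (a := (N1 : ℝ) * E2.y.v - (N2 * A1.y.v + N1 * N2 * (A.n12.v * T1.y.v))) hx2
  have b4 := neg_le_mul (a := 65536 * ((N1 : ℝ) * N2) * A.n2.v + (N2 * A1.x.v
    + N1 * N2 * (A.n12.v * T1.x.v) - N1 * E2.x.v)) hy2
  have b5 := neg_le_mul (a := (N2 : ℝ) * (T1.x.v * E1.x.v + T1.y.v * E1.y.v
    - (A1.x.v * T2.x.v + A1.y.v * T2.y.v)) + (65536 * N2 * F1.x.v - De.v)) hg1
  have b6 := neg_le_mul (a := (N1 : ℝ) * (T2.x.v * E2.x.v + T2.y.v * E2.y.v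
    + (T1.x.v * B2.x.v + T1.y.v * B2.y.v)) + (65536 * N1 * F2.x.v + De.v)) hg2
  have b7 : (N2 * (T1.x.v * E1.y.v - T1.y.v * E1.x.v + (A1.x.v * T2.y.v - A1.y.v * T2.x.v))
      + (65536 * N2 * F1.y.v + Ga.v)) * k1 ≤ ((add (smul N2 (add (dt T1 E1) (dt A1 T2)))
      (add (smul (65536 * N2) F1.y) Ga)).pp : ℝ) * e1 := by
    refine le_trans (mul_le_mul_of_nonneg_right ?_ hk1)
      (mul_le_mul_of_nonneg_left hk1' (pp_nonneg _))
    refine le_trans (le_of_eq ?_) (le_pp _)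
    simp only [v_add, v_smul, dt, v_sub, v_mul, Nat.cast_mul, Nat.cast_ofNat]
  have b8 : (N1 * (T2.x.v * E2.y.v - T2.y.v * E2.x.v + (T1.x.v * B2.y.v - T1.y.v * B2.x.v))
      + (65536 * N1 * F2.y.v + Ga.v)) * k2 ≤ ((add (smul N1 (add (dt T2 E2) (dt T1 B2)))
      (add (smul (65536 * N1) F2.y) Ga)).pp : ℝ) * e2 := by
    refine le_trans (mul_le_mul_of_nonneg_right ?_ hk2)
      (mul_le_mul_of_nonneg_left hk2' (pp_nonneg _))
    refine le_trans (le_of_eq ?_) (le_pp _)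
    simp only [v_add, v_smul, dt, v_sub, v_mul, Nat.cast_mul, Nat.cast_ofNat]
  -- the quadratic terms
  have c1 := neg_le_mul (a := B2.x.v) (abs_two hx1 hg2 hy1 hk2a)
  have c2 := neg_le_mul (a := B2.y.v) (abs_two' hy1 hg2 hx1 hk2a)
  have c3 := neg_le_mul (a := E2.x.v) (abs_two hx2 hg2 hy2 hk2a)
  have c4 := neg_le_mul (a := E2.y.v) (abs_two' hy2 hg2 hx2 hk2a)
  have c5 := neg_le_mul (a := -A1.x.v) (abs_two hx2 hg1 hy2 hk1a)
  have c6 := neg_le_mul (a := -A1.y.v) (abs_two' hy2 hg1 hx2 hk1a)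
  have c7 := neg_le_mul (a := E1.x.v) (abs_two hx1 hg1 hy1 hk1a)
  have c8 := neg_le_mul (a := E1.y.v) (abs_two' hy1 hg1 hx1 hk1a)
  have c9 := neg_le_mul (a := Ga.v) (abs_two hg1 hg2 hk1a hk2a)
  have c10 := neg_le_mul (a := De.v) (abs_two' hg1 hk2a hk1a hg2)
  have c11 := neg_le_mul (a := A.n12.v) (abs_two' hx1 hy2 hy1 hx2)
  rw [abs_neg] at c5 c6
  have c1' := mul_le_mul_of_nonneg_left c1 hN1'.le
  have c2' := mul_le_mul_of_nonneg_left c2 hN1'.le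
  have c3' := mul_le_mul_of_nonneg_left c3 hN1'.le
  have c4' := mul_le_mul_of_nonneg_left c4 hN1'.le
  have c5' := mul_le_mul_of_nonneg_left c5 hN2'.le
  have c6' := mul_le_mul_of_nonneg_left c6 hN2'.le
  have c7' := mul_le_mul_of_nonneg_left c7 hN2'.le
  have c8' := mul_le_mul_of_nonneg_left c8 hN2'.le
  have c11' := mul_le_mul_of_nonneg_left c11 (mul_pos hN1' hN2').le
  clear c1 c2 c3 c4 c5 c6 c7 c8 c11
  -- the constant term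
  obtain ⟨G, hG⟩ : ∃ G : Z, G = (add (add (smul (N1 * N2) (add A.K (mul A.n12 (dt T1 T2))))
      (add (smul N2 (add (dt T1 E1) (dt A1 T2))) (smul N1 (add (dt T2 E2) (dt T1 B2)))))
      (add Ga (smul 65536 (add (smul (N1 * N2) (add (mul A.n1 T1.y) (mul A.n2 T2.y)))
        (add (smul N2 F1.y) (smul N1 F2.y)))))) := ⟨_, rfl⟩
  have hGv : G.v = N1 * N2 * (A.K.v + A.n12.v * (T1.x.v * T2.y.v - T1.y.v * T2.x.v))
      + (N2 * (T1.x.v * E1.y.v - T1.y.v * E1.x.v + (A1.x.v * T2.y.v - A1.y.v * T2.x.v))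
      + N1 * (T2.x.v * E2.y.v - T2.y.v * E2.x.v + (T1.x.v * B2.y.v - T1.y.v * B2.x.v)))
      + (Ga.v + 65536 * (N1 * N2 * (A.n1.v * T1.y.v + A.n2.v * T2.y.v)
        + (N2 * F1.y.v + N1 * F2.y.v))) := by
    rw [hG]
    simp only [v_add, v_smul, dt, v_sub, v_mul, Nat.cast_mul, Nat.cast_ofNat]
  have hGG : (G.pp : ℝ) = G.v ∨ G.v ≤ (G.pp : ℝ) ∧ (G.pp : ℝ) = 0 := by
    simp only [pp, v, Nat.sub_eq]
    rcases le_total G.p G.n with h | h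
    · right
      have : (G.p : ℝ) ≤ G.n := by exact_mod_cast h
      rw [Nat.sub_eq_zero_of_le h]
      simp only [Nat.cast_zero]
      exact ⟨by linarith, trivial⟩
    · left; rw [Nat.cast_sub h]
  have hNN := mul_pos (mul_pos hN1' hN2') hMW'
  simp only [dt] at hG
  rw [← hG] at hr
  clear hG
  obtain ⟨w7, hw7⟩ : ∃ w : ℝ, w = ((add (smul N2 (add (dt T1 E1) (dt A1 T2)))
      (add (smul (65536 * N2) F1.y) Ga)).pp : ℝ) * e1 := ⟨_, rfl⟩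
  obtain ⟨w8, hw8⟩ : ∃ w : ℝ, w = ((add (smul N1 (add (dt T2 E2) (dt T1 B2)))
      (add (smul (65536 * N1) F2.y) Ga)).pp : ℝ) * e2 := ⟨_, rfl⟩
  rw [← hw7] at b7
  rw [← hw8] at b8
  have hw7' : 0 ≤ w7 := by rw [hw7]; exact mul_nonneg (pp_nonneg _) (Nat.cast_nonneg _)
  have hw8' : 0 ≤ w8 := by rw [hw8]; exact mul_nonneg (pp_nonneg _) (Nat.cast_nonneg _)
  simp only [dt] at hw7 hw8
  rw [← hw7, ← hw8] at hr
  clear hw7 hw8
  rcases hGG with hGG | ⟨-, hGG⟩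
  · rw [hGG, hGv] at hr
    linarith [hr, b1, b2, b3, b4, b5, b6, b7, b8, c1', c2', c3', c4', c5', c6', c7', c8', c9,
      c10, c11']
  · exfalso
    rw [hGG] at hr
    have n1 : (0 : ℝ) ≤ dx1 := Nat.cast_nonneg _
    have n2 : (0 : ℝ) ≤ dy1 := Nat.cast_nonneg _
    have n3 : (0 : ℝ) ≤ dx2 := Nat.cast_nonneg _
    have n4 : (0 : ℝ) ≤ dy2 := Nat.cast_nonneg _
    have n5 : (0 : ℝ) ≤ s1 := Nat.cast_nonneg _
    have n6 : (0 : ℝ) ≤ s2 := Nat.cast_nonneg _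
    have n7 : (0 : ℝ) ≤ e1 := Nat.cast_nonneg _
    have n8 : (0 : ℝ) ≤ e2 := Nat.cast_nonneg _
    rw [mul_zero] at hr
    refine absurd hr (not_le.2 ?_)
    positivity

end Pool.Agent.Worm59
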