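import Pool.Agent.Worm59.Snd3

/-!
# Soundness of the check of a tree
-/

set_option autoImplicit false

namespace Pool.Agent.Worm59

open Z

theorem rot_co {n : ℕ} (h : n ≤ 16384) (u : ℝ) (a : V) :
    16384 * ((nn n : ℝ) * (co u * a.x.v - si u * a.y.v))
      = (16384 - 16384 * (1 - Cv n u)) * (rot (pc n) (qc n) a).x.v
        - (16384 * Sv n u) * (rot (pc n) (qc n) a).y.v := by
  have h1 := co_eq h u
  have h2 := si_eq h u
  rw [rot_x, rot_y]
  linear_combination (16384 * a.x.v) * h1 - (16384 * a.y.v) * h2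

theorem rot_si {n : ℕ} (h : n ≤ 16384) (u : ℝ) (a : V) :
    16384 * ((nn n : ℝ) * (si u * a.x.v + co u * a.y.v))
      = (16384 - 16384 * (1 - Cv n u)) * (rot (pc n) (qc n) a).y.v
        + (16384 * Sv n u) * (rot (pc n) (qc n) a).x.v := by
  have h1 := co_eq h u
  have h2 := si_eq h u
  rw [rot_x, rot_y]
  linear_combination (16384 * a.x.v) * h2 + (16384 * a.y.v) * h1

theorem finA_sound {b : Bx} {A : Ag} {W : ℕ} {t : St} (hb : In t b) (hp : Pos t)
    (h : finA b A W = true) : 1 ≤ W ∧ (W : ℝ) * 2035814499 ≤ A.val t := by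
  unfold finA at h
  simp only [Bool.and_eq_true, Nat.ble_eq] at h
  obtain ⟨hW, hu1, hu2, h⟩ := h
  refine ⟨hW, ?_⟩
  unfold fin' at h
  have hn1 := nn_pos b.u1
  have hn2 := nn_pos b.u2
  have k1 := fin_sound (x1 := t.x1) (y1 := t.y1) (x2 := t.x2) (y2 := t.y2)
    (g1 := 16384 * Sv b.u1 t.u1) (k1 := 16384 * (1 - Cv b.u1 t.u1))
    (g2 := 16384 * Sv b.u2 t.u2) (k2 := 16384 * (1 - Cv b.u2 t.u2)) h
    (by simp only [MT, Nat.mul_eq]; positivity) (by exact_mod_cast hn1) (by exact_mod_cast hn2)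
    (by have := hb.x1; simp only [v_mk, Nat.cast_ofNat]; convert this using 2; ring)
    (by have := hb.y1; simp only [v_mk, Nat.cast_ofNat]; convert this using 2; ring)
    (by have := hb.x2; simp only [v_mk, Nat.cast_ofNat]; convert this using 2; ring)
    (by have := hb.y2; simp only [v_mk, Nat.cast_ofNat]; convert this using 2; ring)
    (by rw [abs_mul]; have := Sv_le hu1 hp.u1 hb.u1; norm_num; exact this)
    (by have := Cv_le_one hu1 t.u1; linarith) (le_Cv hu1 hp.u1 hb.u1)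
    (by rw [abs_mul]; have := Sv_le hu2 hp.u2 hb.u2; norm_num; exact this)
    (by have := Cv_le_one hu2 t.u2; linarith) (le_Cv hu2 hp.u2 hb.u2)
  have a1 := rot_co hu1 t.u1 A.e1
  have a2 := rot_si hu1 t.u1 A.e1
  have a3 := rot_co hu2 t.u2 A.e2
  have a4 := rot_si hu2 t.u2 A.e2
  have a5 := rot_co hu2 t.u2 A.b2
  have a6 := rot_si hu2 t.u2 A.b2
  have a7 := rot_co hu1 t.u1 A.a1
  have a8 := rot_si hu1 t.u1 A.a1
  have a9 := rot_si hu1 t.u1 A.f1
  have a10 := rot_si hu2 t.u2 A.f2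
  -- the relative rotation
  have c1 := co_eq hu1 t.u1
  have c2 := co_eq hu2 t.u2
  have d1 := si_eq hu1 t.u1
  have d2 := si_eq hu2 t.u2
  obtain ⟨N1, hN1⟩ : ∃ N : ℝ, N = nn b.u1 := ⟨_, rfl⟩
  obtain ⟨N2, hN2⟩ : ∃ N : ℝ, N = nn b.u2 := ⟨_, rfl⟩
  have hgd : 268435456 * (N1 * N2 * ((co t.u1 * co t.u2 + si t.u1 * si t.u2) * A.ga.v
      + (co t.u1 * si t.u2 - si t.u1 * co t.u2) * A.de.v))
      = ((16384 - 16384 * (1 - Cv b.u1 t.u1)) * (16384 - 16384 * (1 - Cv b.u2 t.u2))
          + (16384 * Sv b.u1 t.u1) * (16384 * Sv b.u2 t.u2))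
          * ((pc b.u1 * pc b.u2 + qc b.u1 * qc b.u2) * A.ga.v
            + (pc b.u1 * qc b.u2 - qc b.u1 * pc b.u2) * A.de.v)
        + ((16384 - 16384 * (1 - Cv b.u1 t.u1)) * (16384 * Sv b.u2 t.u2)
          - (16384 * Sv b.u1 t.u1) * (16384 - 16384 * (1 - Cv b.u2 t.u2)))
          * ((pc b.u1 * pc b.u2 + qc b.u1 * qc b.u2) * A.de.v
            - (pc b.u1 * qc b.u2 - qc b.u1 * pc b.u2) * A.ga.v) := by
    rw [← hN1] at c1 d1
    rw [← hN2] at c2 d2
    have e : 268435456 * (N1 * N2 * ((co t.u1 * co t.u2 + si t.u1 * si t.u2) * A.ga.v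
      + (co t.u1 * si t.u2 - si t.u1 * co t.u2) * A.de.v))
      = 268435456 * ((((N1 * co t.u1) * (N2 * co t.u2) + (N1 * si t.u1) * (N2 * si t.u2)) * A.ga.v
      + ((N1 * co t.u1) * (N2 * si t.u2) - (N1 * si t.u1) * (N2 * co t.u2)) * A.de.v)) := by ring
    rw [e, c1, c2, d1, d2]
    ring
  rw [← hN1] at a1 a2 a7 a8 a9 hn1 k1
  rw [← hN2] at a3 a4 a5 a6 a10 hn2 k1
  simp only [v_add, v_sub, v_smul, v_mul, v_mk, Nat.add_eq, Nat.mul_eq, Nat.cast_add,
    Nat.cast_mul, MT, Nat.cast_ofNat] at k1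
  have hNN : 0 < 268435456 * (N1 * N2) := by positivity
  have key : 268435456 * (N1 * N2) * ((W : ℝ) * 2035814499) ≤
      268435456 * (N1 * N2) * A.val t := by
    refine le_trans (le_of_eq ?_) (k1.trans (le_of_eq ?_))
    · ring
    · unfold Ag.val
      linear_combination (-1 : ℝ) * hgd - (16384 * N2 * t.x1) * a2 + (16384 * N2 * t.y1) * a1
        - (16384 * N1 * t.x2) * a4 + (16384 * N1 * t.y2) * a3
        - (16384 * N1 * t.x1) * a6 + (16384 * N1 * t.y1) * a5
        - (16384 * N2 * t.y2) * a7 + (16384 * N2 * t.x2) * a8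
        - (65536 * 16384 * N2) * a9 - (65536 * 16384 * N1) * a10
  exact le_of_mul_le_mul_left key hNN

theorem cols_sound {k mu ml : ℕ} {b : Bx} {t : St} {μ : ℝ} (hb : In t b) (hp : Pos t)
    (hg : Good k t μ) (hm : MOK k t mu ml) : ∀ (n c : ℕ) (A : Ag) (W : ℕ),
    cols k mu ml b n c A W = true → A.val t ≤ W * μ → 2035814499 ≤ μ := by
  have hfin : ∀ (A : Ag) (W : ℕ), finA b A W = true → A.val t ≤ W * μ → 2035814499 ≤ μ := by
    intro A W h hA
    obtain ⟨hW, h1⟩ := finA_sound hb hp h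
    have hW' : (0 : ℝ) < W := by exact_mod_cast hW
    exact le_of_mul_le_mul_left (h1.trans hA) hW'
  intro n
  induction n with
  | zero => exact fun c A W h hA => hfin A W h hA
  | succ n ih =>
    intro c A W h hA
    have h' : cond (Nat.beq c 0) (finA b A W)
        (cols k mu ml b n (Nat.div c 1099511627776)
          (cond (Nat.beq (dg c 4) 9)
            (quad k (Nat.mod c 65536) (dg c 5) (dg c 6) (dg c 7) (dg c 8) A)
            (upper k mu (Nat.mod c 65536) (dg c 4) (dg c 5) (dg c 6)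
              (lower k ml (Nat.mod c 65536) (dg c 7) (dg c 8) (dg c 9) A)))
          (Nat.add W (Nat.mod c 65536))) = true := h
    cases hc : Nat.beq c 0
    · rw [hc, cond_false] at h'
      refine ih _ _ _ h' ?_
      rw [Nat.add_eq, Nat.cast_add, add_mul]
      cases hd : Nat.beq (dg c 4) 9
      · rw [cond_false]
        have := updown_le (w := Nat.mod c 65536) (p := dg c 4) (b := dg c 5) (q := dg c 6)
          (p' := dg c 7) (b' := dg c 8) (q' := dg c 9) (A := A) hg hm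
        linarith
      · rw [cond_true]
        have := quad_le (w := Nat.mod c 65536) (P := dg c 5) (a := dg c 6) (Q := dg c 7)
          (b := dg c 8) (A := A) hg
        linarith
    · rw [hc, cond_true] at h'
      exact hfin A W h' hA

/-! ### masks -/

theorem bit_lt {m i : ℕ} (hm : m < 512) (h : bit m i = true) : i ≤ 8 := by
  by_contra hcon
  have h1 : 512 ≤ 2 ^ i := by
    calc 512 = 2 ^ 9 := by norm_num
      _ ≤ 2 ^ i := Nat.pow_le_pow_right (by norm_num) (by omega)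
  unfold bit at h
  have h2 : Nat.div m (Nat.pow 2 i) = 0 := Nat.div_eq_of_lt (hm.trans_le h1)
  rw [h2] at h
  exact absurd h (by decide)

theorem upI_sound {k : ℕ} {b : Bx} {t : St} (hb : In t b) (hp : Pos t) (hu1 : b.u1 ≤ 16384)
    (hu2 : b.u2 ≤ 16384) {i : ℕ} (hi : 2 ≤ i) (h : upI k b i = true) : 0 ≤ py k t i := by
  unfold upI at h
  have hi0 : i ≠ 0 := by omega
  have hi1 : i ≠ 1 := by omega
  unfold py
  rw [if_neg hi0, if_neg hi1]
  by_cases h4 : i ≤ 4
  · rw [ble_true h4, cond_true] at h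
    rw [if_pos h4]
    exact upOK_sound hu1 hp.u1 hb.u1 hb.y1 _ h
  · rw [ble_false h4, cond_false] at h
    rw [if_neg h4]
    exact upOK_sound hu2 hp.u2 hb.u2 hb.y2 _ h

theorem loI_sound {k : ℕ} {b : Bx} {t : St} (hb : In t b) (hp : Pos t) (hu1 : b.u1 ≤ 16384)
    (hu2 : b.u2 ≤ 16384) {i : ℕ} (hi : 2 ≤ i) (h : loI k b i = true) : py k t i ≤ 0 := by
  unfold loI at h
  have hi0 : i ≠ 0 := by omega
  have hi1 : i ≠ 1 := by omega
  unfold py
  rw [if_neg hi0, if_neg hi1]
  by_cases h4 : i ≤ 4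
  · rw [ble_true h4, cond_true] at h
    rw [if_pos h4]
    exact loOK_sound hu1 hp.u1 hb.u1 hb.y1 _ h
  · rw [ble_false h4, cond_false] at h
    rw [if_neg h4]
    exact loOK_sound hu2 hp.u2 hb.u2 hb.y2 _ h

theorem masks_spec {k mu ml : ℕ} {b : Bx} : ∀ n, masks k mu ml b n = true →
    ∀ i < n, (bit mu (i + 2) = true → upI k b (i + 2) = true) ∧
      (bit ml (i + 2) = true → loI k b (i + 2) = true) := by
  intro n
  induction n with
  | zero => exact fun _ i hi => absurd hi (Nat.not_lt_zero _)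
  | succ n ih =>
    intro h i hi
    have h' : ((cond (bit mu (n + 2)) (upI k b (n + 2)) true).and
      ((cond (bit ml (n + 2)) (loI k b (n + 2)) true).and (masks k mu ml b n))) = true := h
    simp only [Bool.and_eq_true] at h'
    obtain ⟨h1, h2, h3⟩ := h'
    rcases Nat.lt_succ_iff_lt_or_eq.1 hi with hi | rfl
    · exact ih h3 i hi
    · exact ⟨fun h4 => by rw [h4, cond_true] at h1; exact h1,
        fun h4 => by rw [h4, cond_true] at h2; exact h2⟩

theorem mok {k mu ml : ℕ} {b : Bx} {t : St} (hb : In t b) (hp : Pos t) (hu1 : b.u1 ≤ 16384)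
    (hu2 : b.u2 ≤ 16384) (h1 : mu < 512) (h2 : ml < 512) (h : masks k mu ml b 7 = true) :
    MOK k t mu ml := by
  refine ⟨fun i hi => ⟨bit_lt h1 hi, ?_⟩, fun i hi => ⟨bit_lt h2 hi, ?_⟩⟩
  · have h8 := bit_lt h1 hi
    by_cases h3 : 2 ≤ i
    · obtain ⟨j, rfl⟩ : ∃ j, i = j + 2 := ⟨i - 2, by omega⟩
      exact upI_sound hb hp hu1 hu2 h3 ((masks_spec 7 h j (by omega)).1 hi)
    · have h4 : i = 0 ∨ i = 1 := by omega
      rcases h4 with rfl | rfl <;> simp [py]
  · have h8 := bit_lt h2 hi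
    by_cases h3 : 2 ≤ i
    · obtain ⟨j, rfl⟩ : ∃ j, i = j + 2 := ⟨i - 2, by omega⟩
      exact loI_sound hb hp hu1 hu2 h3 ((masks_spec 7 h j (by omega)).2 hi)
    · have h4 : i = 0 ∨ i = 1 := by omega
      rcases h4 with rfl | rfl <;> simp [py]

/-- all leaves end with `finA`, so the centres are in range -/
theorem cols_range {k mu ml : ℕ} {b : Bx} : ∀ (n c : ℕ) (A : Ag) (W : ℕ),
    cols k mu ml b n c A W = true → b.u1 ≤ 16384 ∧ b.u2 ≤ 16384 := by
  have hfin : ∀ (A : Ag) (W : ℕ), finA b A W = true → b.u1 ≤ 16384 ∧ b.u2 ≤ 16384 := by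
    intro A W h
    unfold finA at h
    simp only [Bool.and_eq_true, Nat.ble_eq] at h
    exact ⟨h.2.1, h.2.2.1⟩
  intro n
  induction n with
  | zero => exact fun c A W h => hfin A W h
  | succ n ih =>
    intro c A W h
    have h' : cond (Nat.beq c 0) (finA b A W)
        (cols k mu ml b n (Nat.div c 1099511627776)
          (cond (Nat.beq (dg c 4) 9)
            (quad k (Nat.mod c 65536) (dg c 5) (dg c 6) (dg c 7) (dg c 8) A)
            (upper k mu (Nat.mod c 65536) (dg c 4) (dg c 5) (dg c 6)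
              (lower k ml (Nat.mod c 65536) (dg c 7) (dg c 8) (dg c 9) A)))
          (Nat.add W (Nat.mod c 65536))) = true := h
    cases hc : Nat.beq c 0
    · rw [hc, cond_false] at h'
      exact ih _ _ _ h'
    · rw [hc, cond_true] at h'
      exact hfin A W h'

theorem leaf_sound {k : ℕ} {b : Bx} {c : ℕ} {t : St} {μ : ℝ} (hb : In t b) (hp : Pos t)
    (hg : Good k t μ) (h : leafOK k b c = true) : 2035814499 ≤ μ := by
  unfold leafOK at h
  rw [Bool.and_eq_true] at h
  obtain ⟨h1, h2⟩ := h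
  obtain ⟨hu1, hu2⟩ := cols_range _ _ _ _ h2
  have hm := mok hb hp hu1 hu2 (Nat.mod_lt _ (by norm_num)) (Nat.mod_lt _ (by norm_num)) h1
  refine cols_sound hb hp hg hm _ _ _ _ h2 ?_
  rw [val_ag0]; simp

/-! ### splitting -/

theorem split_aux {c h : ℕ} {x : ℝ} (hx : 0 ≤ x) (hc : |x - c| ≤ h) :
    |x - lo c h| ≤ hf h ∨ |x - hi c h| ≤ hf h := by
  have h1 : h ≤ 2 * hf h := by
    have : hf h = (h + 1) / 2 := rfl
    omega
  have h2 : hf h ≤ h := by
    have : hf h = (h + 1) / 2 := rfl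
    omega
  have h1' : (h : ℝ) ≤ 2 * hf h := by exact_mod_cast h1
  obtain ⟨h3, h4⟩ := abs_le.1 hc
  rcases le_total x c with h5 | h5
  · left
    have e : lo c h = c + hf h - h := rfl
    rw [e]
    rcases le_total h (c + hf h) with h6 | h6
    · rw [Nat.cast_sub h6, Nat.cast_add, abs_le]
      constructor <;> linarith
    · have h6' : ((c : ℝ) + hf h) ≤ h := by exact_mod_cast h6
      rw [Nat.sub_eq_zero_of_le h6, Nat.cast_zero, sub_zero, abs_of_nonneg hx]
      linarith
  · right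
    have e : hi c h = c + h - hf h := rfl
    rw [e, Nat.cast_sub (h2.trans (Nat.le_add_left _ _)), Nat.cast_add, abs_le]
    constructor <;> linarith

theorem split_sound {d : ℕ} {b : Bx} {t : St} (hb : In t b) (hp : Pos t) :
    In t (left d b) ∨ In t (right d b) := by
  unfold left right
  cases h0 : Nat.beq d 0
  · cases h1 : Nat.beq d 1
    · cases h2 : Nat.beq d 2
      · cases h3 : Nat.beq d 3
        · cases h4 : Nat.beq d 4
          · simp only [cond_false]
            have e : (16384 : ℝ) * t.u2 - b.u2 = (16384 * t.u2) - b.u2 := rfl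
            rcases split_aux (mul_nonneg (by norm_num) hp.u2) hb.u2 with h | h
            · exact Or.inl ⟨hb.x1, hb.y1, hb.u1, hb.x2, hb.y2, h⟩
            · exact Or.inr ⟨hb.x1, hb.y1, hb.u1, hb.x2, hb.y2, h⟩
          · simp only [cond_false, cond_true]
            rcases split_aux hp.y2 hb.y2 with h | h
            · exact Or.inl ⟨hb.x1, hb.y1, hb.u1, hb.x2, h, hb.u2⟩
            · exact Or.inr ⟨hb.x1, hb.y1, hb.u1, hb.x2, h, hb.u2⟩
        · simp only [cond_false, cond_true]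
          rcases split_aux hp.x2 hb.x2 with h | h
          · exact Or.inl ⟨hb.x1, hb.y1, hb.u1, h, hb.y2, hb.u2⟩
          · exact Or.inr ⟨hb.x1, hb.y1, hb.u1, h, hb.y2, hb.u2⟩
      · simp only [cond_false, cond_true]
        rcases split_aux (mul_nonneg (by norm_num) hp.u1) hb.u1 with h | h
        · exact Or.inl ⟨hb.x1, hb.y1, h, hb.x2, hb.y2, hb.u2⟩
        · exact Or.inr ⟨hb.x1, hb.y1, h, hb.x2, hb.y2, hb.u2⟩
    · simp only [cond_false, cond_true]
      rcases split_aux hp.y1 hb.y1 with h | h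
      · exact Or.inl ⟨hb.x1, h, hb.u1, hb.x2, hb.y2, hb.u2⟩
      · exact Or.inr ⟨hb.x1, h, hb.u1, hb.x2, hb.y2, hb.u2⟩
  · simp only [cond_true]
    rcases split_aux hp.x1 hb.x1 with h | h
    · exact Or.inl ⟨h, hb.y1, hb.u1, hb.x2, hb.y2, hb.u2⟩
    · exact Or.inr ⟨h, hb.y1, hb.u1, hb.x2, hb.y2, hb.u2⟩

/-- the bound holds on the box -/
def Ok (k : ℕ) (b : Bx) : Prop :=
  ∀ (t : St) (μ : ℝ), In t b → Pos t → Good k t μ → 2035814499 ≤ μ

theorem Ok.split {k : ℕ} (d : ℕ) {b : Bx} (h1 : Ok k (left d b)) (h2 : Ok k (right d b)) :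
    Ok k b := by
  intro t μ hb hp hg
  rcases split_sound (d := d) hb hp with h | h
  · exact h1 t μ h hp hg
  · exact h2 t μ h hp hg

theorem chk_sound (k : ℕ) (T : Tr) : ∀ b : Bx, chk k T b = true → Ok k b := by
  induction T with
  | L c => exact fun b h t μ hb hp hg => leaf_sound hb hp hg h
  | S d l r ihl ihr =>
    intro b h
    have h' : ((chk k l (left d b)).and (chk k r (right d b))) = true := h
    rw [Bool.and_eq_true] at h'
    exact Ok.split d (ihl _ h'.1) (ihr _ h'.2)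

end Pool.Agent.Worm59
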