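import Pool.Agent.Worm59.C00
import Pool.Agent.Worm59.C01
import Pool.Agent.Worm59.C02
import Pool.Agent.Worm59.C03
import Pool.Agent.Worm59.C04
import Pool.Agent.Worm59.C05
import Pool.Agent.Worm59.C06
import Pool.Agent.Worm59.C07
import Pool.Agent.Worm59.C08
import Pool.Agent.Worm59.C09
import Pool.Agent.Worm59.C10
import Pool.Agent.Worm59.C11

/-!
# The certificate
-/

set_option autoImplicit false
set_option maxRecDepth 100000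

namespace Pool.Agent.Worm59

theorem ok_root0 : Ok 0 root :=
  (Ok.split 1 q0_0 (Ok.split 1 (Ok.split 4 q0_1 (Ok.split 5 (Ok.split 4 (Ok.split 1 (Ok.split 2
  (Ok.split 4 q0_2 q0_3) q0_4) q0_5) q0_6) (Ok.split 4 (Ok.split 5 (Ok.split 1 q0_7 (Ok.split 4
  q0_8 (Ok.split 2 (Ok.split 1 q0_9 q0_10) q0_11))) q0_12) q0_13))) q0_14))

theorem ok_root1 : Ok 1 root :=
  (Ok.split 1 q1_0 (Ok.split 1 (Ok.split 4 q1_1 (Ok.split 5 q1_2 (Ok.split 4 (Ok.split 5 q1_3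
  (Ok.split 2 (Ok.split 1 q1_4 (Ok.split 4 q1_5 (Ok.split 4 (Ok.split 1 (Ok.split 2 (Ok.split 5
  q1_6 (Ok.split 4 q1_7 (Ok.split 2 (Ok.split 5 q1_8 (Ok.split 4 (Ok.split 1 (Ok.split 4 q1_9
  (Ok.split 5 q1_10 (Ok.split 1 q1_11 (Ok.split 4 q1_12 (Ok.split 5 q1_13 (Ok.split 1 q1_14
  (Ok.split 4 (Ok.split 5 q1_15 (Ok.split 0 (Ok.split 3 (Ok.split 3 q1_16 (Ok.split 0 q1_17
  (Ok.split 1 (Ok.split 4 q1_18 q1_19) q1_20))) q1_21) q1_22)) q1_23))))))) q1_24) q1_25))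
  q1_26))) q1_27) q1_28) q1_29))) q1_30)) q1_31))) q1_32))

theorem ok_root2 : Ok 2 root :=
  (Ok.split 1 q2_0 (Ok.split 1 (Ok.split 4 q2_1 (Ok.split 5 (Ok.split 4 (Ok.split 5 (Ok.split 5
  (Ok.split 2 (Ok.split 1 (Ok.split 4 (Ok.split 2 q2_2 q2_3) q2_4) (Ok.split 4 q2_5 (Ok.split 4
  (Ok.split 1 (Ok.split 2 (Ok.split 1 (Ok.split 4 q2_6 (Ok.split 5 (Ok.split 4 (Ok.split 5
  (Ok.split 4 q2_7 (Ok.split 5 (Ok.split 1 q2_8 (Ok.split 4 (Ok.split 5 (Ok.split 5 (Ok.split 1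
  q2_9 (Ok.split 5 (Ok.split 0 q2_10 (Ok.split 3 q2_11 (Ok.split 3 (Ok.split 0 (Ok.split 3 q2_12
  q2_13) q2_14) q2_15))) q2_16)) q2_17) q2_18) (Ok.split 5 (Ok.split 1 q2_19 (Ok.split 4
  (Ok.split 5 (Ok.split 0 q2_20 (Ok.split 3 q2_21 (Ok.split 3 (Ok.split 0 (Ok.split 3 (Ok.split 1
  q2_22 q2_23) (Ok.split 0 q2_24 q2_25)) q2_26) q2_27))) q2_28) q2_29)) q2_30))) q2_31)) q2_32)
  q2_33) q2_34)) q2_35) q2_36) q2_37) q2_38))) q2_39) q2_40) q2_41) q2_42) q2_43)) q2_44))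

theorem ok_root3 : Ok 3 root :=
  (Ok.split 1 q3_0 (Ok.split 1 (Ok.split 4 q3_1 (Ok.split 5 (Ok.split 4 (Ok.split 5 (Ok.split 2
  (Ok.split 1 q3_2 q3_3) q3_4) q3_5) q3_6) (Ok.split 4 (Ok.split 5 (Ok.split 4 q3_7 (Ok.split 2
  (Ok.split 1 q3_8 q3_9) q3_10)) q3_11) q3_12))) q3_13))

end Pool.Agent.Worm59
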